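import Pool.Agent.Helper64.FL.StC

set_option autoImplicit false

/-!
FL, module FTH: the layout of a clique.
-/

namespace Pool.Agent.Helper64.FL

open Pool.Agent.Helper64.CT Pool.Agent.Helper64.DT
open Pool.Agent.Helper64.HG (Ovl Model Circ IC HellyCircle ChordModel)

/-- the cyclic sequence gives a cycle `BCy` -/
theorem fth_cyc (hBCX : ST_BCX) {V : Type} {G : SimpleGraph V} {Q : Set V} {σ : V → Bool}
    (hE : EnvC G Q σ) (U W : V → V → V)
    (hUW : ∀ a b, (∃ u w, BE G Q a b u w) → BE G Q a b (U a b) (W a b))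
    (m : ℕ) (q : ℕ → V) (hm : 3 ≤ m) (hp : ∀ i, q (i + m) = q i)
    (hi : ∀ i j, i < j → j < i + m → q i ≠ q j)
    (hB : ∀ i, ∃ u w, BE G Q (q i) (q (i + 1)) u w) :
    ∃ P u w, BCy G Q m q P u w ∧
      xs (fun i => xor (σ (u i)) (σ (w i))) m =
        xs (fun i => xor (σ (U (q i) (q (i + 1)))) (σ (W (q (i + m - 1)) (q i)))) m := by
  have key := hBCX V G Q σ hE m q (fun i => U (q i) (q (i + 1)))
    (fun i => W (q (i + m - 1)) (q i)) hm hp
    (fun i => by
      show U (q (i + m)) (q (i + m + 1)) = U (q i) (q (i + 1))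
      rw [hp i, show i + m + 1 = (i + 1) + m by ring, hp (i + 1)])
    (fun i => by
      show W (q (i + m + m - 1)) (q (i + m)) = W (q (i + m - 1)) (q i)
      rw [hp i, show i + m + m - 1 = (i + m - 1) + m by omega, hp (i + m - 1)])
    hi
    (fun i => by
      show BE G Q (q i) (q (i + 1)) (U (q i) (q (i + 1))) (W (q (i + 1 + m - 1)) (q (i + 1)))
      rw [show i + 1 + m - 1 = i + m by omega, hp i]
      exact hUW _ _ (hB i))
  exact key

theorem fth_card {V : Type} [Finite V] [Nonempty V] {Q : Set V} (hBig : Big Q) :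
    3 ≤ Nat.card Q := by
  classical
  obtain ⟨v0⟩ := ‹Nonempty V›
  obtain ⟨a, haQ, -, -⟩ := hBig v0 v0
  obtain ⟨b, hbQ, hba, -⟩ := hBig a a
  obtain ⟨c, hcQ, hca, hcb⟩ := hBig a b
  have hsub : ({a, b, c} : Finset V) ⊆ Q.toFinite.toFinset := by
    intro x hx
    rw [Set.Finite.mem_toFinset]
    simp only [Finset.mem_insert, Finset.mem_singleton] at hx
    rcases hx with rfl | rfl | rfl <;> assumption
  have h1 : ({a, b, c} : Finset V).card = 3 := by
    rw [Finset.card_insert_of_notMem, Finset.card_insert_of_notMem, Finset.card_singleton]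
    · simp only [Finset.mem_singleton]
      exact fun h => hcb h.symm
    · simp only [Finset.mem_insert, Finset.mem_singleton, not_or]
      exact ⟨fun h => hba h.symm, fun h => hca h.symm⟩
  have h2 := Finset.card_le_card hsub
  rw [h1] at h2
  rw [Nat.card_coe_set_eq, Set.ncard_eq_toFinset_card Q Q.toFinite]
  exact h2

/-- the sum of the parities around a cycle -/
theorem fth_sum (hXSB : ST_XSB) (m : ℕ) (f g : ℕ → Bool) (hg : ∀ i, g (i + m) = g i) :
    xs (fun i => xor (f i) (g i)) m = xs (fun i => xor (f i) (g (i + 1))) m := by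
  rw [(hXSB f g m).1, (hXSB f (fun i => g (i + 1)) m).1, (hXSB g g m).2.1 hg 1]

theorem st_FTH (hENU : ST_ENU) (hHR3 : ST_HR3) (hBCX : ST_BCX) (hCYO : ST_CYO) (hHCM : ST_HCM)
    (hEWD : ST_EWD) (hRAY : ST_RAY) (hXSB : ST_XSB) : ST_FTH := by
  intro V _ G Q σ hE
  classical
  by_cases hR : RingE G
  · exact Or.inr hR
  left
  by_cases hV : Nonempty V
  swap
  · have hVe : IsEmpty V := not_nonempty_iff.mp hV
    exact ⟨3, fun _ => 0, fun _ => false, le_rfl, fun x => (hVe.false x).elim,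
      fun x => (hVe.false x).elim, fun a => (hVe.false a).elim⟩
  obtain ⟨hr1, hr2, hr3, hr4, hr5, hr6⟩ := hRAY V G Q hE.red.1 hE.mx
  have hn3 : 3 ≤ Nat.card Q := fth_card hE.big
  -- chosen rays
  let U : V → V → V := fun a b => if h : ∃ u w, BE G Q a b u w then h.choose else a
  let W : V → V → V := fun a b =>
    if h : ∃ u w, BE G Q a b u w then h.choose_spec.choose else a
  have hUW : ∀ a b, (∃ u w, BE G Q a b u w) → BE G Q a b (U a b) (W a b) := by
    intro a b h
    have h1 : U a b = h.choose := dif_pos h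
    have h2 : W a b = h.choose_spec.choose := dif_pos h
    rw [h1, h2]
    exact h.choose_spec.choose_spec
  -- parity of a pair is well defined
  have hwd : ∀ a b u w u' w', BE G Q a b u w → BE G Q a b u' w' →
      xor (σ u) (σ w) = xor (σ u') (σ w') := by
    intro a b u w u' w' h h'
    obtain ⟨y, hyQ, hya, hyb⟩ := hE.big a b
    exact hEWD V G Q σ hE a b y u u' w w' h.1 hyQ hya hyb h.2.1 h'.2.1 h.2.2.1 h'.2.2.1
      ((hr4 a b u w h).2.2.2.2 y hyQ hya hyb) ((hr4 a b u' w' h').2.2.2.2 y hyQ hya hyb)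
  obtain ⟨θ, hinj, hlt, hθ⟩ := hENU Q (fun a b => ∃ u w, BE G Q a.1 b.1 u w) hn3
    (fun a b ⟨u, w, h⟩ => ⟨w, u, (hr4 _ _ _ _ h).1⟩)
    (fun a ⟨u, w, h⟩ => h.1 rfl)
    (by
      rintro a b c d ⟨u1, w1, h1⟩ ⟨u2, w2, h2⟩ ⟨u3, w3, h3⟩ hbc hbd hcd
      refine hHR3 V G Q σ hE a.1
        (fun i => if i = 0 then b.1 else if i = 1 then c.1 else d.1)
        (fun i => if i = 0 then u1 else if i = 1 then u2 else u3)
        (fun i => if i = 0 then w1 else if i = 1 then w2 else w3) ?_ ?_
      · intro i hi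
        interval_cases i
        · exact h1
        · exact h2
        · exact h3
      · have e1 : b.1 ≠ c.1 := fun h => hbc (Subtype.ext h)
        have e2 : b.1 ≠ d.1 := fun h => hbd (Subtype.ext h)
        have e3 : c.1 ≠ d.1 := fun h => hcd (Subtype.ext h)
        intro i hi j hj hij
        interval_cases i <;> interval_cases j
        · exact absurd rfl hij
        · exact e1
        · exact e2
        · exact e1.symm
        · exact absurd rfl hij
        · exact e3
        · exact e2.symm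
        · exact e3.symm
        · exact absurd rfl hij)
    (by
      intro m q hm hp hi hB a
      obtain ⟨P, u, w, hC, -⟩ := fth_cyc hBCX hE U W hUW m (fun i => (q i).1) hm
        (fun i => congrArg Subtype.val (hp i))
        (fun i j h1 h2 h => hi i j h1 h2 (Subtype.ext h)) hB
      obtain ⟨i, hi⟩ := hCYO V G Q σ hE m _ P u w hC a.1 a.2
      exact ⟨i, Subtype.ext hi⟩)
  -- the inverse of `θ`
  have hsurj : ∀ i, i < Nat.card Q → ∃ a : Q, θ a = i := by
    intro i hi
    let g : Q → Fin (Nat.card Q) := fun a => ⟨θ a, hlt a⟩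
    have hg : Function.Injective g := fun a b hab => hinj (congrArg Fin.val hab)
    have hfin : Fintype Q := Fintype.ofFinite Q
    have hgb : Function.Bijective g := by
      rw [Fintype.bijective_iff_injective_and_card]
      refine ⟨hg, ?_⟩
      rw [Fintype.card_fin, Nat.card_eq_fintype_card]
    obtain ⟨a, ha⟩ := hgb.2 ⟨i, hi⟩
    exact ⟨a, congrArg Fin.val ha⟩
  have hpos : 0 < Nat.card Q := by omega
  choose q0 hq0 using fun i : ℕ => hsurj (i % Nat.card Q) (Nat.mod_lt _ hpos)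
  have hq0' : ∀ i, i < Nat.card Q → θ (q0 i) = i := by
    intro i hi
    rw [hq0 i, Nat.mod_eq_of_lt hi]
  have hqθ : ∀ a : Q, q0 (θ a) = a := fun a => hinj (hq0' _ (hlt a))
  have hqp : ∀ i, q0 (i + Nat.card Q) = q0 i := by
    intro i
    apply hinj
    rw [hq0, hq0, Nat.add_mod_right]
  let g : ℕ → Bool := fun i =>
    if ∃ u w, BE G Q (q0 i).1 (q0 (i + 1)).1 u w then
      xor (σ (U (q0 i).1 (q0 (i + 1)).1)) (σ (W (q0 i).1 (q0 (i + 1)).1)) else false
  let θ' : V → ℕ := fun v => if h : v ∈ Q then θ ⟨v, h⟩ else 0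
  have hθ' : ∀ v (h : v ∈ Q), θ' v = θ ⟨v, h⟩ := fun v h => dif_pos h
  refine ⟨Nat.card Q, θ', fun v => xs g (θ' v), hn3, ?_, ?_, ?_⟩
  · intro a ha b hb hab
    rw [hθ' a ha, hθ' b hb] at hab
    exact congrArg Subtype.val (hinj hab)
  · intro a ha
    rw [hθ' a ha]
    exact hlt _
  · intro a b u w hB hab
    have haQ : a ∈ Q := (hr4 _ _ _ _ hB).2.1
    have hbQ : b ∈ Q := (hr4 _ _ _ _ hB).2.2.1
    rw [hθ' a haQ, hθ' b hbQ] at hab ⊢
    rcases hθ ⟨a, haQ⟩ ⟨b, hbQ⟩ ⟨u, w, hB⟩ hab with h | ⟨h1, h2, h3⟩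
    · left
      refine ⟨h, ?_⟩
      rw [h]
      show xor (σ u) (σ w) = xor (xs g (θ ⟨a, haQ⟩)) (xor (xs g (θ ⟨a, haQ⟩)) (g (θ ⟨a, haQ⟩)))
      have hga : g (θ ⟨a, haQ⟩) = xor (σ (U a b)) (σ (W a b)) := by
        have e1 : q0 (θ ⟨a, haQ⟩) = ⟨a, haQ⟩ := hqθ _
        have e2 : q0 (θ ⟨a, haQ⟩ + 1) = ⟨b, hbQ⟩ := by
          rw [← h]
          exact hqθ _
        show (if ∃ u w, BE G Q (q0 (θ ⟨a, haQ⟩)).1 (q0 (θ ⟨a, haQ⟩ + 1)).1 u w then
          xor (σ (U (q0 (θ ⟨a, haQ⟩)).1 (q0 (θ ⟨a, haQ⟩ + 1)).1))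
            (σ (W (q0 (θ ⟨a, haQ⟩)).1 (q0 (θ ⟨a, haQ⟩ + 1)).1)) else false) = _
        rw [e1, e2]
        exact if_pos ⟨u, w, hB⟩
      rw [hga, hwd a b u w _ _ hB (hUW a b ⟨u, w, hB⟩)]
      cases xs g (θ ⟨a, haQ⟩) <;> simp
    · right
      refine ⟨h1, h2, ?_⟩
      obtain ⟨m, hm⟩ : ∃ m, Nat.card Q = m + 1 := ⟨Nat.card Q - 1, by omega⟩
      have hbm : θ ⟨b, hbQ⟩ = m := by omega
      -- all consecutive pairs are in `B`
      have hall : ∀ i, ∃ u w, BE G Q (q0 i).1 (q0 (i + 1)).1 u w := by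
        intro i
        by_cases hi : i % Nat.card Q + 1 < Nat.card Q
        · apply h3
          rw [hq0, hq0, Nat.add_mod, Nat.mod_eq_of_lt (show 1 < Nat.card Q by omega),
            Nat.mod_eq_of_lt hi]
        · have hlt' := Nat.mod_lt i hpos
          have e1 : q0 i = ⟨b, hbQ⟩ := by
            apply hinj
            rw [hq0 i]
            omega
          have e2 : q0 (i + 1) = ⟨a, haQ⟩ := by
            apply hinj
            rw [hq0 (i + 1), h1, Nat.add_mod, Nat.mod_eq_of_lt (show 1 < Nat.card Q by omega),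
              show i % Nat.card Q + 1 = Nat.card Q by omega, Nat.mod_self]
          rw [e1, e2]
          exact ⟨w, u, (hr4 _ _ _ _ hB).1⟩
      obtain ⟨P, u1, w1, hC, hs⟩ := fth_cyc hBCX hE U W hUW (Nat.card Q)
        (fun i => (q0 i).1) hn3 (fun i => congrArg Subtype.val (hqp i))
        (fun i j hij hj h => by
          have h' : q0 i = q0 j := Subtype.ext h
          have h'' := congrArg θ h'
          rw [hq0, hq0] at h''
          have hmod : i ≡ j [MOD Nat.card Q] := h''
          have hdvd := (Nat.modEq_iff_dvd' hij.le).1 hmod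
          have := Nat.le_of_dvd (by omega) hdvd
          omega) hall
      have hsum : xs (fun i => xor (σ (U (q0 i).1 (q0 (i + 1)).1))
          (σ (W (q0 (i + Nat.card Q - 1)).1 (q0 i).1))) (Nat.card Q) = true := by
        rcases hHCM V G Q σ hE _ _ P u1 w1 hC with h | h
        · rw [hs] at h
          exact h
        · exact absurd h hR
      have hsum2 : xs g (Nat.card Q) = true := by
        rw [← hsum, fth_sum hXSB (Nat.card Q) (fun i => σ (U (q0 i).1 (q0 (i + 1)).1))
          (fun i => σ (W (q0 (i + Nat.card Q - 1)).1 (q0 i).1))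
          (fun i => by
            show σ (W (q0 (i + Nat.card Q + Nat.card Q - 1)).1 (q0 (i + Nat.card Q)).1) =
              σ (W (q0 (i + Nat.card Q - 1)).1 (q0 i).1)
            rw [hqp i, show i + Nat.card Q + Nat.card Q - 1 = (i + Nat.card Q - 1) + Nat.card Q by
              omega, hqp (i + Nat.card Q - 1)])]
        refine (hXSB g _ (Nat.card Q)).2.2.2.1 ?_
        intro i _
        show (if ∃ u w, BE G Q (q0 i).1 (q0 (i + 1)).1 u w then
          xor (σ (U (q0 i).1 (q0 (i + 1)).1)) (σ (W (q0 i).1 (q0 (i + 1)).1)) else false) =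
          xor (σ (U (q0 i).1 (q0 (i + 1)).1)) (σ (W (q0 (i + 1 + Nat.card Q - 1)).1 (q0 (i + 1)).1))
        rw [if_pos (hall i), show i + 1 + Nat.card Q - 1 = i + Nat.card Q by omega, hqp i]
      rw [h1, hbm]
      rw [hm] at hsum2
      have hgm : g m = xor (σ (U b a)) (σ (W b a)) := by
        have e1 : q0 m = ⟨b, hbQ⟩ := by
          rw [← hbm]
          exact hqθ _
        have e2 : q0 (m + 1) = ⟨a, haQ⟩ := by
          apply hinj
          rw [hq0, ← hm, Nat.mod_self, h1]
        show (if ∃ u w, BE G Q (q0 m).1 (q0 (m + 1)).1 u w then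
          xor (σ (U (q0 m).1 (q0 (m + 1)).1)) (σ (W (q0 m).1 (q0 (m + 1)).1)) else false) = _
        rw [e1, e2]
        exact if_pos ⟨w, u, (hr4 _ _ _ _ hB).1⟩
      have hba : BE G Q b a w u := (hr4 _ _ _ _ hB).1
      have hw2 := hwd b a w u _ _ hba (hUW b a ⟨w, u, hba⟩)
      have hs3 : xor (xs g m) (g m) = true := hsum2
      rw [hgm, ← hw2] at hs3
      show xor (σ u) (σ w) = !(xor false (xs g m))
      revert hs3
      cases σ u <;> cases σ w <;> cases xs g m <;> simp

end Pool.Agent.Helper64.FL
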