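import Pool.Agent.Helper64.FL.StH

set_option autoImplicit false

/-!
FL, module LPA: ladders from pieces.
-/

namespace Pool.Agent.Helper64.FL

open Pool.Agent.Helper64.CT Pool.Agent.Helper64.DT
open Pool.Agent.Helper64.HG (Ovl Model Circ IC HellyCircle ChordModel)

variable {V : Type}

theorem lpa_far (G : SimpleGraph V) (x : V) (n : ℕ → V) (P : ℕ → List V) (a b : ℕ)
    (h : Arc G x n P a b) (i j : ℕ) (hi : a ≤ i) (hi' : i < b) (hj : a ≤ j) (hj' : j ≤ b)
    (u : V) (hu : u ∈ P i) : u ≠ n j := by
  rintro rfl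
  exact (h.far i hi hi' _ hu).2 (h.xn j hj hj')

open Classical in
theorem lpa_rungs (G : SimpleGraph V) (h k : V) (A B : List V) :
    rungs G h k (A ++ B) = rungs G h k A + rungs G h k B := by
  unfold rungs
  rw [List.filter_append, List.length_append]

open Classical in
theorem lpa_rungs0 (G : SimpleGraph V) (h k : V) (A : List V)
    (hA : ∀ u ∈ A, ¬ (G.Adj h u ∧ G.Adj k u)) : rungs G h k A = 0 := by
  unfold rungs
  rw [List.length_eq_zero_iff, List.filter_eq_nil_iff]
  intro u hu
  have := hA u hu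
  simp only [decide_eq_true_eq]
  exact this

theorem lpa_head {A B : List V} (hA : A ≠ []) : (A ++ B).head? = A.head? := by
  cases A with
  | nil => exact absurd rfl hA
  | cons a A => rfl

theorem lpa_last {A B : List V} (hB : B ≠ []) : (A ++ B).getLast? = B.getLast? := by
  rw [List.getLast?_append]
  cases hb : B.getLast? with
  | none => exact absurd (List.getLast?_eq_none_iff.mp hb) hB
  | some c => rfl

theorem lpa_tail {A : List V} {x : V} (hx : x ∈ A) (h : A.head? ≠ some x) : x ∈ A.tail := by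
  cases A with
  | nil => simp at hx
  | cons a A =>
    rcases List.mem_cons.mp hx with rfl | hx
    · exact absurd rfl h
    · exact hx

theorem lpa_dropLast {A : List V} {x : V} (hx : x ∈ A) (h : A.getLast? ≠ some x) :
    x ∈ A.dropLast := by
  have hne : A ≠ [] := by
    rintro rfl
    simp at hx
  have e := List.dropLast_append_getLast hne
  rw [← e] at hx
  rcases List.mem_append.mp hx with hx | hx
  · exact hx
  · rw [List.mem_singleton] at hx
    exact absurd (by rw [List.getLast?_eq_getLast_of_ne_nil hne, hx]) h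

/-- LPA -/
theorem st_LPA (hARI : ST_ARI) (hJIN : ST_JIN) : ST_LPA := by
  intro V G x h k E1 n P a t E2 α β H
  obtain ⟨i1, i2, i3, i4, i5⟩ := hARI V G x n P a t H.arc H.st
  set L := arcL n P a t with hL
  have hLne : L ≠ [] := by
    intro hn
    rw [hn] at i2
    simp at i2
  have hLE : (L ++ E2).head? = some (n a) := by rw [lpa_head hLne, i2]
  have hLEne : L ++ E2 ≠ [] := by
    intro hn
    exact hLne (List.append_eq_nil_iff.mp hn).1
  have s1 : IPt G (L ++ E2) := by
    apply hJIN V G _ _ i1 H.ip2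
    intro u hu w hw
    rw [i3]
    rcases (i4 u).mp hu with ⟨i, hi, hi', rfl⟩ | ⟨i, hi, hi', hui⟩
    · have c := (H.c2 w hw).1 i hi hi'
      refine ⟨c.1.symm, ?_⟩
      by_cases h1 : i = a + t
      · have e := (H.e2 w hw).2.2
        rw [h1, SimpleGraph.adj_comm, e]
        exact ⟨fun h => ⟨rfl, h⟩, fun h => h.2⟩
      · constructor
        · intro h2
          exact absurd h2.symm (c.2 h1)
        · rintro ⟨h2, _⟩
          exact absurd (Option.some.inj h2).symm
            (H.arc.inj i (a + t) hi (by omega) le_rfl)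
    · have c := (H.c2 w hw).2 i hi hi' u hui
      refine ⟨c.1.symm, fun h2 => absurd h2.symm c.2, ?_⟩
      rintro ⟨h2, _⟩
      exact absurd (Option.some.inj h2).symm
        (lpa_far G x n P a _ H.arc i (a + t) hi hi' (by omega) le_rfl u hui)
  have s2 : IPt G (E1 ++ (L ++ E2)) := by
    apply hJIN V G _ _ H.ip1 s1
    intro u hu w hw
    rw [hLE]
    rcases List.mem_append.mp hw with hw | hw
    · rcases (i4 w).mp hw with ⟨i, hi, hi', rfl⟩ | ⟨i, hi, hi', hwi⟩
      · have c := (H.c1 u hu).1 i hi hi'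
        refine ⟨c.1, ?_⟩
        by_cases h1 : i = a
        · rw [h1, (H.e1 u hu).2.2]
          exact ⟨fun h => ⟨h, rfl⟩, fun h => h.1⟩
        · constructor
          · intro h2
            exact absurd h2 (c.2 h1)
          · rintro ⟨_, h2⟩
            exact absurd (Option.some.inj h2)
              (H.arc.inj a i le_rfl (by omega) hi')
      · have c := (H.c1 u hu).2 i hi hi' w hwi
        refine ⟨c.1, fun h2 => absurd h2 c.2, ?_⟩
        rintro ⟨_, h2⟩
        exact absurd (Option.some.inj h2).symm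
          (lpa_far G x n P a _ H.arc i a hi hi' le_rfl (by omega) w hwi)
    · have c := H.c12 u hu w hw
      refine ⟨c.1, fun h2 => absurd h2 c.2, ?_⟩
      rintro ⟨_, h2⟩
      exact absurd (Option.some.inj h2).symm ((H.c2 w hw).1 a le_rfl (by omega)).1
  have b1 : ∀ u ∈ E1, ¬ (G.Adj h u ∧ G.Adj k u) := by
    intro u hu hb
    by_cases h1 : E1.head? = some u
    · have h2 := H.h1 u h1
      have h3 := h2.1.mp hb.1
      have h4 := h2.2.mp hb.2
      rw [h3] at h4
      exact absurd h4 (by simp)
    · exact (H.t1 u (lpa_tail hu h1)).1 hb.1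
  have b2 : ∀ u ∈ E2, ¬ (G.Adj h u ∧ G.Adj k u) := by
    intro u hu hb
    by_cases h1 : E2.getLast? = some u
    · have h2 := H.h2 u h1
      have h3 := h2.1.mp hb.1
      have h4 := h2.2.mp hb.2
      rw [h3] at h4
      exact absurd h4 (by simp)
    · exact (H.t2 u (lpa_dropLast hu h1)).1 hb.1
  have bth : ∀ u ∈ E1 ++ (L ++ E2), G.Adj h u → G.Adj k u → ∃ i, a ≤ i ∧ i ≤ a + t ∧ u = n i := by
    intro u hu hb hc
    rcases List.mem_append.mp hu with hu | hu
    · exact absurd ⟨hb, hc⟩ (b1 u hu)
    · rcases List.mem_append.mp hu with hu | hu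
      · rcases (i4 u).mp hu with h1 | ⟨i, hi, hi', hui⟩
        · exact h1
        · exact absurd hb (H.hP i hi hi' u hui).2.2.1
      · exact absurd ⟨hb, hc⟩ (b2 u hu)
  have hM : ∀ z, (z = h ∨ z = k) → z ∉ E1 ++ (L ++ E2) := by
    intro z hz hm
    rcases List.mem_append.mp hm with hm | hm
    · rcases hz with rfl | rfl
      · exact (H.e1 z hm).1 rfl
      · exact (H.e1 z hm).2.1 rfl
    · rcases List.mem_append.mp hm with hm | hm
      · rcases (i4 z).mp hm with ⟨i, hi, hi', e⟩ | ⟨i, hi, hi', hui⟩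
        · have c := H.hn i hi hi'
          rcases hz with rfl | rfl
          · rw [← e] at c
            exact G.loopless.irrefl _ c.1
          · rw [← e] at c
            exact G.loopless.irrefl _ c.2
        · rcases hz with rfl | rfl
          · exact (H.hP i hi hi' z hui).1 rfl
          · exact (H.hP i hi hi' z hui).2.1 rfl
      · rcases hz with rfl | rfl
        · exact (H.e2 z hm).1 rfl
        · exact (H.e2 z hm).2.1 rfl
  have l1 : 1 ≤ E1.length := List.length_pos_iff.mpr H.ne1
  have l2 : 1 ≤ E2.length := List.length_pos_iff.mpr H.ne2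
  have hhd : (E1 ++ (L ++ E2)).head? = E1.head? := lpa_head H.ne1
  have hls : (E1 ++ (L ++ E2)).getLast? = E2.getLast? := by
    rw [lpa_last hLEne, lpa_last H.ne2]
  refine ⟨⟨s2, ?_, H.hk, H.nhk, hM h (Or.inl rfl), hM k (Or.inr rfl), ?_, ?_, ?_, ?_⟩, ?_, ?_⟩
  · rw [List.length_append, List.length_append]
    omega
  · intro u hu
    rw [hhd] at hu
    exact H.h1 u hu
  · intro u hu
    rw [hls] at hu
    exact H.h2 u hu
  · intro u hu h1 h2
    rw [hhd] at h1
    rw [hls] at h2
    rcases List.mem_append.mp hu with hu | hu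
    · have c := H.t1 u (lpa_tail hu h1)
      exact ⟨fun h3 => absurd h3 c.1, fun h3 => absurd h3 c.2⟩
    · rcases List.mem_append.mp hu with hu | hu
      · rcases (i4 u).mp hu with ⟨i, hi, hi', rfl⟩ | ⟨i, hi, hi', hui⟩
        · have c := H.hn i hi hi'
          exact ⟨fun _ => c.2, fun _ => c.1⟩
        · have c := (H.hP i hi hi' u hui).2.2
          exact ⟨fun h3 => absurd h3 c.1, fun h3 => absurd h3 c.2⟩
      · have c := H.t2 u (lpa_dropLast hu h2)
        exact ⟨fun h3 => absurd h3 c.1, fun h3 => absurd h3 c.2⟩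
  · rintro u hu w hw hA ⟨q1, q2, q3, q4⟩
    obtain ⟨i, hi, hi', rfl⟩ := bth u hu q1 q2
    obtain ⟨j, hj, hj', rfl⟩ := bth w hw q3 q4
    rcases lt_trichotomy i j with hij | hij | hij
    · exact H.st i j hi hij hj' hA
    · rw [hij] at hA
      exact G.loopless.irrefl _ hA
    · exact H.st j i hj hij hi' hA.symm
  · rw [lpa_rungs, lpa_rungs, lpa_rungs0 G h k E1 b1, lpa_rungs0 G h k E2 b2,
      i5 h k H.hn (fun i hi hi' u hu => (H.hP i hi hi' u hu).2.2)]
    omega
  · intro v
    rw [List.mem_append, List.mem_append, i4 v]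
    unfold ladV
    rw [Set.mem_setOf_eq]
    generalize (∃ i, a ≤ i ∧ i ≤ a + t ∧ v = n i) = p
    generalize (∃ i, a ≤ i ∧ i < a + t ∧ v ∈ P i) = q
    tauto

end Pool.Agent.Helper64.FL
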