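import Pool.Agent.Helper64.FL.StG

/-! Full list for MP_866009_co: the eight configurations preK2. -/

set_option autoImplicit false

namespace Pool.Agent.Helper64.FL

open Pool.Agent.Helper64.CT Pool.Agent.Helper64.DT
open Pool.Agent.Helper64.HG (Ovl Model Circ IC HellyCircle ChordModel)

theorem qk2_tri {V : Type} {G : SimpleGraph V} {a w : V} {l : List V} (h : Pth G a l w)
    (e : a = w) : l = [] := by
  rcases h with h | h
  · exact h.2
  · exact absurd e h.1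

theorem qk2_pth {V : Type} {G : SimpleGraph V} {a w : V} {l : List V} (h : Pth G a l w)
    (e : a ≠ w) : IPt G (a :: (l ++ [w])) := by
  rcases h with h | h
  · exact absurd h.1 e
  · exact h.2

theorem qk2_mem {i a : ℕ} {l : List ℕ} (h : i ∉ a :: l) : i ∉ [a] := by
  intro h1
  exact h (List.mem_cons.2 (Or.inl (List.mem_singleton.1 h1)))

/-- symbols: 0=x 1=p 2=p' 3=s 4=t 5=w 6=c 7=l 8=r 9=f 10=y 11=y' -/
def qk2_PA (a b : ℕ) : Pre :=
  ⟨12,
    [(0, 1), (0, 2), (0, 3), (4, 1), (4, 2), (4, 3), (5, 1), (6, 1), (6, 2), (7, a), (8, b), (10, 3), (11, 9)],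
    [(0, 4), (0, 5), (5, 2), (0, 6), (6, 4), (6, 5), (6, 3), (0, 7), (7, 4), (7, 5), (7, 6), (0, 8), (8, 4), (8, 5), (8, 6), (7, b), (0, 9), (9, 4), (9, 5), (9, 6), (7, 3), (8, 3), (9, 3), (0, 10), (10, 4), (10, 5), (10, 6), (0, 11), (11, 4), (11, 5), (11, 6)],
    [(1, 2), (1, 3), (2, 3), (11, 7), (11, 8), (10, 7), (10, 9), (10, 8)],
    [(7, 9), (8, 9), (10, 11)],
    [([(7, 9), (9, 8)], 7, 8), ([(9, 8)], 9, b), ([(10, 11)], 11, 3), ([(7, 9)], 7, 11), ([(10, 11)], 10, 7), ([(10, 11)], 10, 9), ([(10, 11)], 10, 8)],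
    [],
    [(4, 5, [1, 2, 3]), (7, 9, [a]), (9, 8, [a, 10, 11]), (10, 11, [a, b])]⟩

theorem qk2_A (hB : ST_PTB) {V : Type} (G : SimpleGraph V) (K1 K2 K3 : Set V) (a b : ℕ)
    (x p p' s t w c l r f y y' : V) (L l1 l2 l3 : List V)
    (A12 : Anti G K1 K2) (A13 : Anti G K1 K3) (A23 : Anti G K2 K3)
    (F1 : ∀ u ∈ K1, x ≠ u ∧ ¬ G.Adj x u) (F2 : ∀ u ∈ K2, x ≠ u ∧ ¬ G.Adj x u)
    (F3 : ∀ u ∈ K3, x ≠ u ∧ ¬ G.Adj x u)
    (xp : G.Adj x p) (xp' : G.Adj x p') (xs : G.Adj x s) (pp : p ≠ p') (sp : s ≠ p)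
    (sp' : s ≠ p') (tp : G.Adj t p) (tp' : G.Adj t p') (ts : G.Adj t s) (wp : G.Adj w p)
    (wp' : ¬ G.Adj w p') (hT1 : PtK G K1 t L w) (hC : c ∈ K2) (cp : G.Adj c p)
    (cp' : G.Adj c p') (cs : ¬ G.Adj c s)
    (hm1 : 1 ∈ [a, b]) (hm2 : 2 ∈ [a, b])
    (la : G.Adj l ([x, p, p', s, t, w, c, l, r, f, y, y'].getD a x))
    (lb : l ≠ [x, p, p', s, t, w, c, l, r, f, y, y'].getD b x ∧
      ¬ G.Adj l ([x, p, p', s, t, w, c, l, r, f, y, y'].getD b x))
    (rb : G.Adj r ([x, p, p', s, t, w, c, l, r, f, y, y'].getD b x))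
    (fb : f ≠ r → f ≠ [x, p, p', s, t, w, c, l, r, f, y, y'].getD b x ∧
      ¬ G.Adj f ([x, p, p', s, t, w, c, l, r, f, y, y'].getD b x))
    (hb1 : 1 ∉ [a] → ∀ u, u ∈ l1 ∨ u ∈ l2 → ¬ G.Adj u p)
    (hb2 : 2 ∉ [a] → ∀ u, u ∈ l1 ∨ u ∈ l2 → ¬ G.Adj u p')
    (hP : OffP G K3 (fun u => G.Adj u s) l l1 f l2 r y l3 y') :
    PMod G (qk2_PA a b) (fun i => [x, p, p', s, t, w, c, l, r, f, y, y'].getD i x)
      [L, l1, l2, l3] := by
  have hT := hT1.lK
  have hW := hT1.rK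
  have hL := hP.aK
  have hR := hP.wK
  have hF := hP.fK
  have hY := hP.yK
  have hY' := hP.y2K
  have M0 := hT1.LK
  have M1 := hP.l1K
  have M2 := hP.l2K
  have M3 := hP.l3K
  have E1 : ∀ n, G.Adj x n → ∀ u ∈ K1, n ≠ u := fun n hn u hu e => (F1 u hu).2 (e ▸ hn)
  have E1' : ∀ n, G.Adj x n → ∀ u ∈ K1, u ≠ n := fun n hn u hu e => (F1 u hu).2 (e ▸ hn)
  have E2 : ∀ n, G.Adj x n → ∀ u ∈ K2, n ≠ u := fun n hn u hu e => (F2 u hu).2 (e ▸ hn)
  have E2' : ∀ n, G.Adj x n → ∀ u ∈ K2, u ≠ n := fun n hn u hu e => (F2 u hu).2 (e ▸ hn)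
  have E3 : ∀ n, G.Adj x n → ∀ u ∈ K3, n ≠ u := fun n hn u hu e => (F3 u hu).2 (e ▸ hn)
  have E3' : ∀ n, G.Adj x n → ∀ u ∈ K3, u ≠ n := fun n hn u hu e => (F3 u hu).2 (e ▸ hn)
  have A21 : Anti G K2 K1 := fun u hu v hv => ⟨(A12 v hv u hu).1.symm, fun e => (A12 v hv u hu).2 e.symm⟩
  have A31 : Anti G K3 K1 := fun u hu v hv => ⟨(A13 v hv u hu).1.symm, fun e => (A13 v hv u hu).2 e.symm⟩
  have A32 : Anti G K3 K2 := fun u hu v hv => ⟨(A23 v hv u hu).1.symm, fun e => (A23 v hv u hu).2 e.symm⟩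
  have P0 := (hB V G).2.1 _ _ _ hT1.pth
  have P1 := (hB V G).2.1 _ _ _ hP.p1
  have P2 := (hB V G).2.1 _ _ _ hP.p2
  have P3 := (hB V G).2.1 _ _ _ hP.p3
  have R1 : r ∉ l1 := by
    rcases eq_or_ne f r with e | e
    · exact e ▸ P1.2.1
    · exact fun h => (hP.l1w e r h).1 rfl
  have L2 : l ∉ l2 := by
    rcases eq_or_ne l f with e | e
    · rw [e]
      exact P2.1
    · exact fun h => (hP.al2 e l h).1 rfl
  have Sl := hP.sep l (by simp)
  have Sf := hP.sep f (by simp)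
  have Sr := hP.sep r (by simp)
  have S1 : ∀ v ∈ l1, _ := fun v hv => hP.sep v (by simp [hv])
  have S2 : ∀ v ∈ l2, _ := fun v hv => hP.sep v (by simp [hv])
  have Y1 : ∀ u ∈ l1, ¬ G.Adj y u := by
    intro u hu
    rcases eq_or_ne y y' with e | e
    · rw [e]
      exact hP.y2l u hu
    · exact (S1 u hu).2.2.1 e
  constructor
  case e =>
    simp only [qk2_PA, List.forall_mem_cons, List.getD_cons_zero, List.getD_cons_succ]
    exact ⟨xp, xp', xs, tp, tp', ts, wp, cp, cp', la, rb, hP.yφ, hP.y2f, by simp⟩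
  case d =>
    simp only [qk2_PA, List.forall_mem_cons, List.getD_cons_zero, List.getD_cons_succ]
    exact ⟨F1 _ hT,
      F1 _ hW,
      ⟨E1' _ xp' _ hW, wp'⟩,
      F2 _ hC,
      A21 _ hC _ hT,
      A21 _ hC _ hW,
      ⟨E2' _ xs _ hC, cs⟩,
      F3 _ hL,
      A31 _ hL _ hT,
      A31 _ hL _ hW,
      A32 _ hL _ hC,
      F3 _ hR,
      A31 _ hR _ hT,
      A31 _ hR _ hW,
      A32 _ hR _ hC,
      lb,
      F3 _ hF,
      A31 _ hF _ hT,
      A31 _ hF _ hW,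
      A32 _ hF _ hC,
      ⟨E3' _ xs _ hL, hP.nt⟩,
      ⟨E3' _ xs _ hR, hP.nw⟩,
      ⟨E3' _ xs _ hF, hP.nf⟩,
      F3 _ hY,
      A31 _ hY _ hT,
      A31 _ hY _ hW,
      A32 _ hY _ hC,
      F3 _ hY',
      A31 _ hY' _ hT,
      A31 _ hY' _ hW,
      A32 _ hY' _ hC, by simp⟩
  case ne =>
    simp only [qk2_PA, List.forall_mem_cons, List.getD_cons_zero, List.getD_cons_succ]
    exact ⟨pp, sp.symm, sp'.symm, Sl.2.1, Sr.2.1, Sl.1, Sf.1, Sr.1, by simp⟩
  case c =>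
    simp only [qk2_PA, List.forall_mem_cons, List.getD_cons_zero, List.getD_cons_succ]
    refine ⟨fun h => hP.aw h.1 h.2.1, fun h => fb h.1, fun h => ⟨E3' _ xs _ hY', hP.y2φ h.1⟩,
      fun h => ⟨Sl.2.1.symm, fun e => hP.y2t h.1 e.symm⟩, fun h => ⟨Sl.1, Sl.2.2.1 h.1⟩,
      fun h => ⟨Sf.1, Sf.2.2.1 h.1⟩, fun h => ⟨Sr.1, Sr.2.2.1 h.1⟩, by simp⟩
  case cn =>
    simp [qk2_PA]
  case len =>
    rfl
  case tri =>
    simp only [qk2_PA, List.zip_cons_cons, List.forall_mem_cons, List.getD_cons_zero,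
      List.getD_cons_succ]
    exact ⟨qk2_tri hT1.pth, qk2_tri hP.p1, qk2_tri hP.p2, qk2_tri hP.p3, by simp⟩
  case pth =>
    simp only [qk2_PA, List.zip_cons_cons, List.forall_mem_cons, List.getD_cons_zero,
      List.getD_cons_succ]
    exact ⟨qk2_pth hT1.pth, qk2_pth hP.p1, qk2_pth hP.p2, qk2_pth hP.p3, by simp⟩
  case dis =>
    simp only [qk2_PA, List.zip_cons_cons, List.forall_mem_cons]
    refine ⟨?_, ?_, ?_, ?_, by simp⟩
    · intro i hi
      interval_cases i <;> simp only [List.getD_cons_zero, List.getD_cons_succ]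
      · exact fun h => (F1 _ (M0 _ h)).1 rfl
      · exact fun h => E1 _ xp _ (M0 _ h) rfl
      · exact fun h => E1 _ xp' _ (M0 _ h) rfl
      · exact fun h => E1 _ xs _ (M0 _ h) rfl
      · exact P0.1
      · exact P0.2.1
      · exact fun h => (A21 _ hC _ (M0 _ h)).1 rfl
      · exact fun h => (A31 _ hL _ (M0 _ h)).1 rfl
      · exact fun h => (A31 _ hR _ (M0 _ h)).1 rfl
      · exact fun h => (A31 _ hF _ (M0 _ h)).1 rfl
      · exact fun h => (A31 _ hY _ (M0 _ h)).1 rfl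
      · exact fun h => (A31 _ hY' _ (M0 _ h)).1 rfl
    · intro i hi
      interval_cases i <;> simp only [List.getD_cons_zero, List.getD_cons_succ]
      · exact fun h => (F3 _ (M1 _ h)).1 rfl
      · exact fun h => E3 _ xp _ (M1 _ h) rfl
      · exact fun h => E3 _ xp' _ (M1 _ h) rfl
      · exact fun h => E3 _ xs _ (M1 _ h) rfl
      · exact fun h => (A13 _ hT _ (M1 _ h)).1 rfl
      · exact fun h => (A13 _ hW _ (M1 _ h)).1 rfl
      · exact fun h => (A23 _ hC _ (M1 _ h)).1 rfl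
      · exact P1.1
      · exact R1
      · exact P1.2.1
      · exact fun h => (S1 _ h).1 rfl
      · exact fun h => (S1 _ h).2.1 rfl
    · intro i hi
      interval_cases i <;> simp only [List.getD_cons_zero, List.getD_cons_succ]
      · exact fun h => (F3 _ (M2 _ h)).1 rfl
      · exact fun h => E3 _ xp _ (M2 _ h) rfl
      · exact fun h => E3 _ xp' _ (M2 _ h) rfl
      · exact fun h => E3 _ xs _ (M2 _ h) rfl
      · exact fun h => (A13 _ hT _ (M2 _ h)).1 rfl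
      · exact fun h => (A13 _ hW _ (M2 _ h)).1 rfl
      · exact fun h => (A23 _ hC _ (M2 _ h)).1 rfl
      · exact L2
      · exact P2.2.1
      · exact P2.1
      · exact fun h => (S2 _ h).1 rfl
      · exact fun h => (S2 _ h).2.1 rfl
    · intro i hi
      interval_cases i <;> simp only [List.getD_cons_zero, List.getD_cons_succ]
      · exact fun h => (F3 _ (M3 _ h)).1 rfl
      · exact fun h => E3 _ xp _ (M3 _ h) rfl
      · exact fun h => E3 _ xp' _ (M3 _ h) rfl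
      · exact fun h => E3 _ xs _ (M3 _ h) rfl
      · exact fun h => (A13 _ hT _ (M3 _ h)).1 rfl
      · exact fun h => (A13 _ hW _ (M3 _ h)).1 rfl
      · exact fun h => (A23 _ hC _ (M3 _ h)).1 rfl
      · exact fun h => (Sl.2.2.2 _ h).1 rfl
      · exact fun h => (Sr.2.2.2 _ h).1 rfl
      · exact fun h => (Sf.2.2.2 _ h).1 rfl
      · exact P3.1
      · exact P3.2.1
  case cln =>
    simp only [qk2_PA, List.zip_cons_cons, List.forall_mem_cons]
    refine ⟨?_, ?_, ?_, ?_, by simp⟩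
    · intro i hi hU h1 h2 u hu
      interval_cases i <;> simp only [List.getD_cons_zero, List.getD_cons_succ] at h1 h2 ⊢
      · exact (F1 _ (M0 _ hu)).2
      · exact absurd (by simp) hU
      · exact absurd (by simp) hU
      · exact absurd (by simp) hU
      · exact absurd rfl h1
      · exact absurd rfl h2
      · exact (A21 _ hC _ (M0 _ hu)).2
      · exact (A31 _ hL _ (M0 _ hu)).2
      · exact (A31 _ hR _ (M0 _ hu)).2
      · exact (A31 _ hF _ (M0 _ hu)).2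
      · exact (A31 _ hY _ (M0 _ hu)).2
      · exact (A31 _ hY' _ (M0 _ hu)).2
    · intro i hi hU h1 h2 u hu
      interval_cases i <;> simp only [List.getD_cons_zero, List.getD_cons_succ] at h1 h2 ⊢
      · exact (F3 _ (M1 _ hu)).2
      · exact fun e => hb1 hU u (Or.inl hu) e.symm
      · exact fun e => hb2 hU u (Or.inl hu) e.symm
      · exact fun e => hP.nl1 u hu e.symm
      · exact (A13 _ hT _ (M1 _ hu)).2
      · exact (A13 _ hW _ (M1 _ hu)).2
      · exact (A23 _ hC _ (M1 _ hu)).2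
      · exact absurd rfl h1
      · exact fun e => (hP.l1w h2.symm u hu).2 e.symm
      · exact absurd rfl h2
      · exact Y1 u hu
      · exact hP.y2l u hu
    · intro i hi hU h1 h2 u hu
      interval_cases i <;> simp only [List.getD_cons_zero, List.getD_cons_succ] at h1 h2 ⊢
      · exact (F3 _ (M2 _ hu)).2
      · exact fun e => hb1 (qk2_mem hU) u (Or.inr hu) e.symm
      · exact fun e => hb2 (qk2_mem hU) u (Or.inr hu) e.symm
      · exact fun e => hP.nl2 u hu e.symm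
      · exact (A13 _ hT _ (M2 _ hu)).2
      · exact (A13 _ hW _ (M2 _ hu)).2
      · exact (A23 _ hC _ (M2 _ hu)).2
      · exact (hP.al2 h1 u hu).2
      · exact absurd rfl h2
      · exact absurd rfl h1
      · exact absurd (by simp) hU
      · exact absurd (by simp) hU
    · intro i hi hU h1 h2 u hu
      interval_cases i <;> simp only [List.getD_cons_zero, List.getD_cons_succ] at h1 h2 ⊢
      · exact (F3 _ (M3 _ hu)).2
      · exact absurd hm1 hU
      · exact absurd hm2 hU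
      · exact fun e => hP.l3φ u hu e.symm
      · exact (A13 _ hT _ (M3 _ hu)).2
      · exact (A13 _ hW _ (M3 _ hu)).2
      · exact (A23 _ hC _ (M3 _ hu)).2
      · exact fun e => (Sl.2.2.2 _ hu).2 e.symm
      · exact fun e => (Sr.2.2.2 _ hu).2 e.symm
      · exact fun e => (Sf.2.2.2 _ hu).2 e.symm
      · exact absurd rfl h1
      · exact absurd rfl h2
  case sep =>
    simp only [List.pairwise_cons, List.forall_mem_cons]
    refine ⟨⟨fun u hu v hv => A13 _ (M0 u hu) _ (M1 v hv),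
      fun u hu v hv => A13 _ (M0 u hu) _ (M2 v hv),
      fun u hu v hv => A13 _ (M0 u hu) _ (M3 v hv), by simp⟩,
      ⟨hP.l12,
      fun u hu v hv => ⟨fun e => ((S1 u hu).2.2.2 v hv).1 e.symm, fun e => ((S1 u hu).2.2.2 v hv).2 e.symm⟩, by simp⟩,
      ⟨fun u hu v hv => ⟨fun e => ((S2 u hu).2.2.2 v hv).1 e.symm, fun e => ((S2 u hu).2.2.2 v hv).2 e.symm⟩, by simp⟩,
      by simp, by simp⟩

/-- symbols: 0=x 1=p 2=p' 3=s 4=t 5=w 6=c 7=l 8=r 9=f -/
def qk2_PB (a b : ℕ) : Pre :=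
  ⟨10,
    [(0, 1), (0, 2), (0, 3), (4, 1), (4, 2), (4, 3), (5, 1), (6, 1), (6, 2), (7, a), (8, b), (9, 3)],
    [(0, 4), (0, 5), (5, 2), (0, 6), (6, 4), (6, 5), (6, 3), (0, 7), (7, 4), (7, 5), (7, 6), (0, 8), (8, 4), (8, 5), (8, 6), (7, b), (0, 9), (9, 4), (9, 5), (9, 6)],
    [(1, 2), (1, 3), (2, 3)],
    [(7, 9), (8, 9)],
    [([(7, 9), (9, 8)], 7, 8), ([(9, 8)], 9, b), ([(7, 9)], 7, 3)],
    [],
    [(4, 5, [1, 2, 3]), (7, 9, [a]), (9, 8, [a, 3])]⟩

theorem qk2_B (hB : ST_PTB) {V : Type} (G : SimpleGraph V) (K1 K2 K3 : Set V) (a b : ℕ)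
    (x p p' s t w c l r f : V) (L l1 l2 : List V)
    (A12 : Anti G K1 K2) (A13 : Anti G K1 K3) (A23 : Anti G K2 K3)
    (F1 : ∀ u ∈ K1, x ≠ u ∧ ¬ G.Adj x u) (F2 : ∀ u ∈ K2, x ≠ u ∧ ¬ G.Adj x u)
    (F3 : ∀ u ∈ K3, x ≠ u ∧ ¬ G.Adj x u)
    (xp : G.Adj x p) (xp' : G.Adj x p') (xs : G.Adj x s) (pp : p ≠ p') (sp : s ≠ p)
    (sp' : s ≠ p') (tp : G.Adj t p) (tp' : G.Adj t p') (ts : G.Adj t s) (wp : G.Adj w p)
    (wp' : ¬ G.Adj w p') (hT1 : PtK G K1 t L w) (hC : c ∈ K2) (cp : G.Adj c p)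
    (cp' : G.Adj c p') (cs : ¬ G.Adj c s)
    (hm1 : 1 ∈ [a, b]) (hm2 : 2 ∈ [a, b])
    (la : G.Adj l ([x, p, p', s, t, w, c, l, r, f].getD a x))
    (lb : l ≠ [x, p, p', s, t, w, c, l, r, f].getD b x ∧
      ¬ G.Adj l ([x, p, p', s, t, w, c, l, r, f].getD b x))
    (rb : G.Adj r ([x, p, p', s, t, w, c, l, r, f].getD b x))
    (fb : f ≠ r → f ≠ [x, p, p', s, t, w, c, l, r, f].getD b x ∧
      ¬ G.Adj f ([x, p, p', s, t, w, c, l, r, f].getD b x))
    (hb1 : 1 ∉ [a] → ∀ u, u ∈ l1 ∨ u ∈ l2 → ¬ G.Adj u p)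
    (hb2 : 2 ∉ [a] → ∀ u, u ∈ l1 ∨ u ∈ l2 → ¬ G.Adj u p')
    (hP : OnP G K3 (fun u => G.Adj u s) l l1 f l2 r) :
    PMod G (qk2_PB a b) (fun i => [x, p, p', s, t, w, c, l, r, f].getD i x)
      [L, l1, l2] := by
  have hT := hT1.lK
  have hW := hT1.rK
  have hL := hP.aK
  have hR := hP.wK
  have hF := hP.fK
  have M0 := hT1.LK
  have M1 := hP.l1K
  have M2 := hP.l2K
  have E1 : ∀ n, G.Adj x n → ∀ u ∈ K1, n ≠ u := fun n hn u hu e => (F1 u hu).2 (e ▸ hn)
  have E1' : ∀ n, G.Adj x n → ∀ u ∈ K1, u ≠ n := fun n hn u hu e => (F1 u hu).2 (e ▸ hn)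
  have E2 : ∀ n, G.Adj x n → ∀ u ∈ K2, n ≠ u := fun n hn u hu e => (F2 u hu).2 (e ▸ hn)
  have E2' : ∀ n, G.Adj x n → ∀ u ∈ K2, u ≠ n := fun n hn u hu e => (F2 u hu).2 (e ▸ hn)
  have E3 : ∀ n, G.Adj x n → ∀ u ∈ K3, n ≠ u := fun n hn u hu e => (F3 u hu).2 (e ▸ hn)
  have E3' : ∀ n, G.Adj x n → ∀ u ∈ K3, u ≠ n := fun n hn u hu e => (F3 u hu).2 (e ▸ hn)
  have A21 : Anti G K2 K1 := fun u hu v hv => ⟨(A12 v hv u hu).1.symm, fun e => (A12 v hv u hu).2 e.symm⟩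
  have A31 : Anti G K3 K1 := fun u hu v hv => ⟨(A13 v hv u hu).1.symm, fun e => (A13 v hv u hu).2 e.symm⟩
  have A32 : Anti G K3 K2 := fun u hu v hv => ⟨(A23 v hv u hu).1.symm, fun e => (A23 v hv u hu).2 e.symm⟩
  have P0 := (hB V G).2.1 _ _ _ hT1.pth
  have P1 := (hB V G).2.1 _ _ _ hP.p1
  have P2 := (hB V G).2.1 _ _ _ hP.p2
  have R1 : r ∉ l1 := by
    rcases eq_or_ne f r with e | e
    · exact e ▸ P1.2.1
    · exact fun h => (hP.l1w e r h).1 rfl
  have L2 : l ∉ l2 := by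
    rcases eq_or_ne l f with e | e
    · rw [e]
      exact P2.1
    · exact fun h => (hP.al2 e l h).1 rfl
  constructor
  case e =>
    simp only [qk2_PB, List.forall_mem_cons, List.getD_cons_zero, List.getD_cons_succ]
    exact ⟨xp, xp', xs, tp, tp', ts, wp, cp, cp', la, rb, hP.ff, by simp⟩
  case d =>
    simp only [qk2_PB, List.forall_mem_cons, List.getD_cons_zero, List.getD_cons_succ]
    exact ⟨F1 _ hT,
      F1 _ hW,
      ⟨E1' _ xp' _ hW, wp'⟩,
      F2 _ hC,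
      A21 _ hC _ hT,
      A21 _ hC _ hW,
      ⟨E2' _ xs _ hC, cs⟩,
      F3 _ hL,
      A31 _ hL _ hT,
      A31 _ hL _ hW,
      A32 _ hL _ hC,
      F3 _ hR,
      A31 _ hR _ hT,
      A31 _ hR _ hW,
      A32 _ hR _ hC,
      lb,
      F3 _ hF,
      A31 _ hF _ hT,
      A31 _ hF _ hW,
      A32 _ hF _ hC, by simp⟩
  case ne =>
    simp only [qk2_PB, List.forall_mem_cons, List.getD_cons_zero, List.getD_cons_succ]
    exact ⟨pp, sp.symm, sp'.symm, by simp⟩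
  case c =>
    simp only [qk2_PB, List.forall_mem_cons, List.getD_cons_zero, List.getD_cons_succ]
    refine ⟨fun h => hP.aw h.1 h.2.1, fun h => fb h.1, fun h => ⟨E3' _ xs _ hL, hP.ft h.1⟩, by simp⟩
  case cn =>
    simp [qk2_PB]
  case len =>
    rfl
  case tri =>
    simp only [qk2_PB, List.zip_cons_cons, List.forall_mem_cons, List.getD_cons_zero,
      List.getD_cons_succ]
    exact ⟨qk2_tri hT1.pth, qk2_tri hP.p1, qk2_tri hP.p2, by simp⟩
  case pth =>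
    simp only [qk2_PB, List.zip_cons_cons, List.forall_mem_cons, List.getD_cons_zero,
      List.getD_cons_succ]
    exact ⟨qk2_pth hT1.pth, qk2_pth hP.p1, qk2_pth hP.p2, by simp⟩
  case dis =>
    simp only [qk2_PB, List.zip_cons_cons, List.forall_mem_cons]
    refine ⟨?_, ?_, ?_, by simp⟩
    · intro i hi
      interval_cases i <;> simp only [List.getD_cons_zero, List.getD_cons_succ]
      · exact fun h => (F1 _ (M0 _ h)).1 rfl
      · exact fun h => E1 _ xp _ (M0 _ h) rfl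
      · exact fun h => E1 _ xp' _ (M0 _ h) rfl
      · exact fun h => E1 _ xs _ (M0 _ h) rfl
      · exact P0.1
      · exact P0.2.1
      · exact fun h => (A21 _ hC _ (M0 _ h)).1 rfl
      · exact fun h => (A31 _ hL _ (M0 _ h)).1 rfl
      · exact fun h => (A31 _ hR _ (M0 _ h)).1 rfl
      · exact fun h => (A31 _ hF _ (M0 _ h)).1 rfl
    · intro i hi
      interval_cases i <;> simp only [List.getD_cons_zero, List.getD_cons_succ]
      · exact fun h => (F3 _ (M1 _ h)).1 rfl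
      · exact fun h => E3 _ xp _ (M1 _ h) rfl
      · exact fun h => E3 _ xp' _ (M1 _ h) rfl
      · exact fun h => E3 _ xs _ (M1 _ h) rfl
      · exact fun h => (A13 _ hT _ (M1 _ h)).1 rfl
      · exact fun h => (A13 _ hW _ (M1 _ h)).1 rfl
      · exact fun h => (A23 _ hC _ (M1 _ h)).1 rfl
      · exact P1.1
      · exact R1
      · exact P1.2.1
    · intro i hi
      interval_cases i <;> simp only [List.getD_cons_zero, List.getD_cons_succ]
      · exact fun h => (F3 _ (M2 _ h)).1 rfl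
      · exact fun h => E3 _ xp _ (M2 _ h) rfl
      · exact fun h => E3 _ xp' _ (M2 _ h) rfl
      · exact fun h => E3 _ xs _ (M2 _ h) rfl
      · exact fun h => (A13 _ hT _ (M2 _ h)).1 rfl
      · exact fun h => (A13 _ hW _ (M2 _ h)).1 rfl
      · exact fun h => (A23 _ hC _ (M2 _ h)).1 rfl
      · exact L2
      · exact P2.2.1
      · exact P2.1
  case cln =>
    simp only [qk2_PB, List.zip_cons_cons, List.forall_mem_cons]
    refine ⟨?_, ?_, ?_, by simp⟩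
    · intro i hi hU h1 h2 u hu
      interval_cases i <;> simp only [List.getD_cons_zero, List.getD_cons_succ] at h1 h2 ⊢
      · exact (F1 _ (M0 _ hu)).2
      · exact absurd (by simp) hU
      · exact absurd (by simp) hU
      · exact absurd (by simp) hU
      · exact absurd rfl h1
      · exact absurd rfl h2
      · exact (A21 _ hC _ (M0 _ hu)).2
      · exact (A31 _ hL _ (M0 _ hu)).2
      · exact (A31 _ hR _ (M0 _ hu)).2
      · exact (A31 _ hF _ (M0 _ hu)).2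
    · intro i hi hU h1 h2 u hu
      interval_cases i <;> simp only [List.getD_cons_zero, List.getD_cons_succ] at h1 h2 ⊢
      · exact (F3 _ (M1 _ hu)).2
      · exact fun e => hb1 hU u (Or.inl hu) e.symm
      · exact fun e => hb2 hU u (Or.inl hu) e.symm
      · exact fun e => hP.fl u hu e.symm
      · exact (A13 _ hT _ (M1 _ hu)).2
      · exact (A13 _ hW _ (M1 _ hu)).2
      · exact (A23 _ hC _ (M1 _ hu)).2
      · exact absurd rfl h1
      · exact fun e => (hP.l1w h2.symm u hu).2 e.symm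
      · exact absurd rfl h2
    · intro i hi hU h1 h2 u hu
      interval_cases i <;> simp only [List.getD_cons_zero, List.getD_cons_succ] at h1 h2 ⊢
      · exact (F3 _ (M2 _ hu)).2
      · exact fun e => hb1 (qk2_mem hU) u (Or.inr hu) e.symm
      · exact fun e => hb2 (qk2_mem hU) u (Or.inr hu) e.symm
      · exact absurd (by simp) hU
      · exact (A13 _ hT _ (M2 _ hu)).2
      · exact (A13 _ hW _ (M2 _ hu)).2
      · exact (A23 _ hC _ (M2 _ hu)).2
      · exact (hP.al2 h1 u hu).2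
      · exact absurd rfl h2
      · exact absurd rfl h1
  case sep =>
    simp only [List.pairwise_cons, List.forall_mem_cons]
    refine ⟨⟨fun u hu v hv => A13 _ (M0 u hu) _ (M1 v hv),
      fun u hu v hv => A13 _ (M0 u hu) _ (M2 v hv), by simp⟩,
      ⟨hP.l12, by simp⟩,
      by simp, by simp⟩

/-- symbols: 0=x 1=p 2=p' 3=s 4=t 5=w 6=c 7=c' 8=l 9=r 10=f 11=y 12=y' -/
def qk2_PC (a b : ℕ) : Pre :=
  ⟨13,
    [(0, 1), (0, 2), (0, 3), (4, 1), (4, 2), (4, 3), (5, 1), (6, 1), (6, 2), (6, 3), (7, 3), (8, a), (9, b), (11, 3), (12, 10)],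
    [(0, 4), (0, 5), (5, 2), (0, 6), (6, 4), (6, 5), (0, 7), (7, 4), (7, 5), (7, 1), (7, 2), (0, 8), (8, 4), (8, 5), (8, 6), (8, 7), (0, 9), (9, 4), (9, 5), (9, 6), (9, 7), (8, b), (0, 10), (10, 4), (10, 5), (10, 6), (10, 7), (8, 3), (9, 3), (10, 3), (0, 11), (11, 4), (11, 5), (11, 6), (11, 7), (0, 12), (12, 4), (12, 5), (12, 6), (12, 7)],
    [(1, 2), (1, 3), (2, 3), (12, 8), (12, 9), (11, 8), (11, 10), (11, 9)],
    [(8, 10), (9, 10), (11, 12)],
    [([(8, 10), (10, 9)], 8, 9), ([(10, 9)], 10, b), ([(11, 12)], 12, 3), ([(8, 10)], 8, 12), ([(11, 12)], 11, 8), ([(11, 12)], 11, 10), ([(11, 12)], 11, 9)],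
    [],
    [(4, 5, [1, 2, 3]), (6, 7, [1, 2, 3]), (8, 10, [a]), (10, 9, [a, 11, 12]), (11, 12, [a, b])]⟩

theorem qk2_C (hB : ST_PTB) {V : Type} (G : SimpleGraph V) (K1 K2 K3 : Set V) (a b : ℕ)
    (x p p' s t w c c' l r f y y' : V) (L Lc l1 l2 l3 : List V)
    (A12 : Anti G K1 K2) (A13 : Anti G K1 K3) (A23 : Anti G K2 K3)
    (F1 : ∀ u ∈ K1, x ≠ u ∧ ¬ G.Adj x u) (F2 : ∀ u ∈ K2, x ≠ u ∧ ¬ G.Adj x u)
    (F3 : ∀ u ∈ K3, x ≠ u ∧ ¬ G.Adj x u)
    (xp : G.Adj x p) (xp' : G.Adj x p') (xs : G.Adj x s) (pp : p ≠ p') (sp : s ≠ p)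
    (sp' : s ≠ p') (tp : G.Adj t p) (tp' : G.Adj t p') (ts : G.Adj t s) (wp : G.Adj w p)
    (wp' : ¬ G.Adj w p') (hT1 : PtK G K1 t L w) (hC : c ∈ K2) (cp : G.Adj c p)
    (cp' : G.Adj c p') (cs : G.Adj c s) (hC2 : PtK G K2 c Lc c') (c's : G.Adj c' s)
    (c'p : ¬ G.Adj c' p) (c'p' : ¬ G.Adj c' p')
    (hm1 : 1 ∈ [a, b]) (hm2 : 2 ∈ [a, b])
    (la : G.Adj l ([x, p, p', s, t, w, c, c', l, r, f, y, y'].getD a x))
    (lb : l ≠ [x, p, p', s, t, w, c, c', l, r, f, y, y'].getD b x ∧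
      ¬ G.Adj l ([x, p, p', s, t, w, c, c', l, r, f, y, y'].getD b x))
    (rb : G.Adj r ([x, p, p', s, t, w, c, c', l, r, f, y, y'].getD b x))
    (fb : f ≠ r → f ≠ [x, p, p', s, t, w, c, c', l, r, f, y, y'].getD b x ∧
      ¬ G.Adj f ([x, p, p', s, t, w, c, c', l, r, f, y, y'].getD b x))
    (hb1 : 1 ∉ [a] → ∀ u, u ∈ l1 ∨ u ∈ l2 → ¬ G.Adj u p)
    (hb2 : 2 ∉ [a] → ∀ u, u ∈ l1 ∨ u ∈ l2 → ¬ G.Adj u p')
    (hP : OffP G K3 (fun u => G.Adj u s) l l1 f l2 r y l3 y') :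
    PMod G (qk2_PC a b) (fun i => [x, p, p', s, t, w, c, c', l, r, f, y, y'].getD i x)
      [L, Lc, l1, l2, l3] := by
  have hT := hT1.lK
  have hW := hT1.rK
  have hC' := hC2.rK
  have hL := hP.aK
  have hR := hP.wK
  have hF := hP.fK
  have hY := hP.yK
  have hY' := hP.y2K
  have M0 := hT1.LK
  have Mc := hC2.LK
  have M1 := hP.l1K
  have M2 := hP.l2K
  have M3 := hP.l3K
  have E1 : ∀ n, G.Adj x n → ∀ u ∈ K1, n ≠ u := fun n hn u hu e => (F1 u hu).2 (e ▸ hn)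
  have E1' : ∀ n, G.Adj x n → ∀ u ∈ K1, u ≠ n := fun n hn u hu e => (F1 u hu).2 (e ▸ hn)
  have E2 : ∀ n, G.Adj x n → ∀ u ∈ K2, n ≠ u := fun n hn u hu e => (F2 u hu).2 (e ▸ hn)
  have E2' : ∀ n, G.Adj x n → ∀ u ∈ K2, u ≠ n := fun n hn u hu e => (F2 u hu).2 (e ▸ hn)
  have E3 : ∀ n, G.Adj x n → ∀ u ∈ K3, n ≠ u := fun n hn u hu e => (F3 u hu).2 (e ▸ hn)
  have E3' : ∀ n, G.Adj x n → ∀ u ∈ K3, u ≠ n := fun n hn u hu e => (F3 u hu).2 (e ▸ hn)
  have A21 : Anti G K2 K1 := fun u hu v hv => ⟨(A12 v hv u hu).1.symm, fun e => (A12 v hv u hu).2 e.symm⟩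
  have A31 : Anti G K3 K1 := fun u hu v hv => ⟨(A13 v hv u hu).1.symm, fun e => (A13 v hv u hu).2 e.symm⟩
  have A32 : Anti G K3 K2 := fun u hu v hv => ⟨(A23 v hv u hu).1.symm, fun e => (A23 v hv u hu).2 e.symm⟩
  have P0 := (hB V G).2.1 _ _ _ hT1.pth
  have Pc := (hB V G).2.1 _ _ _ hC2.pth
  have P1 := (hB V G).2.1 _ _ _ hP.p1
  have P2 := (hB V G).2.1 _ _ _ hP.p2
  have P3 := (hB V G).2.1 _ _ _ hP.p3
  have R1 : r ∉ l1 := by
    rcases eq_or_ne f r with e | e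
    · exact e ▸ P1.2.1
    · exact fun h => (hP.l1w e r h).1 rfl
  have L2 : l ∉ l2 := by
    rcases eq_or_ne l f with e | e
    · rw [e]
      exact P2.1
    · exact fun h => (hP.al2 e l h).1 rfl
  have Sl := hP.sep l (by simp)
  have Sf := hP.sep f (by simp)
  have Sr := hP.sep r (by simp)
  have S1 : ∀ v ∈ l1, _ := fun v hv => hP.sep v (by simp [hv])
  have S2 : ∀ v ∈ l2, _ := fun v hv => hP.sep v (by simp [hv])
  have Y1 : ∀ u ∈ l1, ¬ G.Adj y u := by
    intro u hu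
    rcases eq_or_ne y y' with e | e
    · rw [e]
      exact hP.y2l u hu
    · exact (S1 u hu).2.2.1 e
  constructor
  case e =>
    simp only [qk2_PC, List.forall_mem_cons, List.getD_cons_zero, List.getD_cons_succ]
    exact ⟨xp, xp', xs, tp, tp', ts, wp, cp, cp', cs, c's, la, rb, hP.yφ, hP.y2f, by simp⟩
  case d =>
    simp only [qk2_PC, List.forall_mem_cons, List.getD_cons_zero, List.getD_cons_succ]
    exact ⟨F1 _ hT,
      F1 _ hW,
      ⟨E1' _ xp' _ hW, wp'⟩,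
      F2 _ hC,
      A21 _ hC _ hT,
      A21 _ hC _ hW,
      F2 _ hC',
      A21 _ hC' _ hT,
      A21 _ hC' _ hW,
      ⟨E2' _ xp _ hC', c'p⟩,
      ⟨E2' _ xp' _ hC', c'p'⟩,
      F3 _ hL,
      A31 _ hL _ hT,
      A31 _ hL _ hW,
      A32 _ hL _ hC,
      A32 _ hL _ hC',
      F3 _ hR,
      A31 _ hR _ hT,
      A31 _ hR _ hW,
      A32 _ hR _ hC,
      A32 _ hR _ hC',
      lb,
      F3 _ hF,
      A31 _ hF _ hT,
      A31 _ hF _ hW,
      A32 _ hF _ hC,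
      A32 _ hF _ hC',
      ⟨E3' _ xs _ hL, hP.nt⟩,
      ⟨E3' _ xs _ hR, hP.nw⟩,
      ⟨E3' _ xs _ hF, hP.nf⟩,
      F3 _ hY,
      A31 _ hY _ hT,
      A31 _ hY _ hW,
      A32 _ hY _ hC,
      A32 _ hY _ hC',
      F3 _ hY',
      A31 _ hY' _ hT,
      A31 _ hY' _ hW,
      A32 _ hY' _ hC,
      A32 _ hY' _ hC', by simp⟩
  case ne =>
    simp only [qk2_PC, List.forall_mem_cons, List.getD_cons_zero, List.getD_cons_succ]
    exact ⟨pp, sp.symm, sp'.symm, Sl.2.1, Sr.2.1, Sl.1, Sf.1, Sr.1, by simp⟩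
  case c =>
    simp only [qk2_PC, List.forall_mem_cons, List.getD_cons_zero, List.getD_cons_succ]
    refine ⟨fun h => hP.aw h.1 h.2.1, fun h => fb h.1, fun h => ⟨E3' _ xs _ hY', hP.y2φ h.1⟩,
      fun h => ⟨Sl.2.1.symm, fun e => hP.y2t h.1 e.symm⟩, fun h => ⟨Sl.1, Sl.2.2.1 h.1⟩,
      fun h => ⟨Sf.1, Sf.2.2.1 h.1⟩, fun h => ⟨Sr.1, Sr.2.2.1 h.1⟩, by simp⟩
  case cn =>
    simp [qk2_PC]
  case len =>
    rfl
  case tri =>
    simp only [qk2_PC, List.zip_cons_cons, List.forall_mem_cons, List.getD_cons_zero,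
      List.getD_cons_succ]
    exact ⟨qk2_tri hT1.pth, qk2_tri hC2.pth, qk2_tri hP.p1, qk2_tri hP.p2, qk2_tri hP.p3, by simp⟩
  case pth =>
    simp only [qk2_PC, List.zip_cons_cons, List.forall_mem_cons, List.getD_cons_zero,
      List.getD_cons_succ]
    exact ⟨qk2_pth hT1.pth, qk2_pth hC2.pth, qk2_pth hP.p1, qk2_pth hP.p2, qk2_pth hP.p3, by simp⟩
  case dis =>
    simp only [qk2_PC, List.zip_cons_cons, List.forall_mem_cons]
    refine ⟨?_, ?_, ?_, ?_, ?_, by simp⟩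
    · intro i hi
      interval_cases i <;> simp only [List.getD_cons_zero, List.getD_cons_succ]
      · exact fun h => (F1 _ (M0 _ h)).1 rfl
      · exact fun h => E1 _ xp _ (M0 _ h) rfl
      · exact fun h => E1 _ xp' _ (M0 _ h) rfl
      · exact fun h => E1 _ xs _ (M0 _ h) rfl
      · exact P0.1
      · exact P0.2.1
      · exact fun h => (A21 _ hC _ (M0 _ h)).1 rfl
      · exact fun h => (A21 _ hC' _ (M0 _ h)).1 rfl
      · exact fun h => (A31 _ hL _ (M0 _ h)).1 rfl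
      · exact fun h => (A31 _ hR _ (M0 _ h)).1 rfl
      · exact fun h => (A31 _ hF _ (M0 _ h)).1 rfl
      · exact fun h => (A31 _ hY _ (M0 _ h)).1 rfl
      · exact fun h => (A31 _ hY' _ (M0 _ h)).1 rfl
    · intro i hi
      interval_cases i <;> simp only [List.getD_cons_zero, List.getD_cons_succ]
      · exact fun h => (F2 _ (Mc _ h)).1 rfl
      · exact fun h => E2 _ xp _ (Mc _ h) rfl
      · exact fun h => E2 _ xp' _ (Mc _ h) rfl
      · exact fun h => E2 _ xs _ (Mc _ h) rfl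
      · exact fun h => (A12 _ hT _ (Mc _ h)).1 rfl
      · exact fun h => (A12 _ hW _ (Mc _ h)).1 rfl
      · exact Pc.1
      · exact Pc.2.1
      · exact fun h => (A32 _ hL _ (Mc _ h)).1 rfl
      · exact fun h => (A32 _ hR _ (Mc _ h)).1 rfl
      · exact fun h => (A32 _ hF _ (Mc _ h)).1 rfl
      · exact fun h => (A32 _ hY _ (Mc _ h)).1 rfl
      · exact fun h => (A32 _ hY' _ (Mc _ h)).1 rfl
    · intro i hi
      interval_cases i <;> simp only [List.getD_cons_zero, List.getD_cons_succ]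
      · exact fun h => (F3 _ (M1 _ h)).1 rfl
      · exact fun h => E3 _ xp _ (M1 _ h) rfl
      · exact fun h => E3 _ xp' _ (M1 _ h) rfl
      · exact fun h => E3 _ xs _ (M1 _ h) rfl
      · exact fun h => (A13 _ hT _ (M1 _ h)).1 rfl
      · exact fun h => (A13 _ hW _ (M1 _ h)).1 rfl
      · exact fun h => (A23 _ hC _ (M1 _ h)).1 rfl
      · exact fun h => (A23 _ hC' _ (M1 _ h)).1 rfl
      · exact P1.1
      · exact R1
      · exact P1.2.1
      · exact fun h => (S1 _ h).1 rfl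
      · exact fun h => (S1 _ h).2.1 rfl
    · intro i hi
      interval_cases i <;> simp only [List.getD_cons_zero, List.getD_cons_succ]
      · exact fun h => (F3 _ (M2 _ h)).1 rfl
      · exact fun h => E3 _ xp _ (M2 _ h) rfl
      · exact fun h => E3 _ xp' _ (M2 _ h) rfl
      · exact fun h => E3 _ xs _ (M2 _ h) rfl
      · exact fun h => (A13 _ hT _ (M2 _ h)).1 rfl
      · exact fun h => (A13 _ hW _ (M2 _ h)).1 rfl
      · exact fun h => (A23 _ hC _ (M2 _ h)).1 rfl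
      · exact fun h => (A23 _ hC' _ (M2 _ h)).1 rfl
      · exact L2
      · exact P2.2.1
      · exact P2.1
      · exact fun h => (S2 _ h).1 rfl
      · exact fun h => (S2 _ h).2.1 rfl
    · intro i hi
      interval_cases i <;> simp only [List.getD_cons_zero, List.getD_cons_succ]
      · exact fun h => (F3 _ (M3 _ h)).1 rfl
      · exact fun h => E3 _ xp _ (M3 _ h) rfl
      · exact fun h => E3 _ xp' _ (M3 _ h) rfl
      · exact fun h => E3 _ xs _ (M3 _ h) rfl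
      · exact fun h => (A13 _ hT _ (M3 _ h)).1 rfl
      · exact fun h => (A13 _ hW _ (M3 _ h)).1 rfl
      · exact fun h => (A23 _ hC _ (M3 _ h)).1 rfl
      · exact fun h => (A23 _ hC' _ (M3 _ h)).1 rfl
      · exact fun h => (Sl.2.2.2 _ h).1 rfl
      · exact fun h => (Sr.2.2.2 _ h).1 rfl
      · exact fun h => (Sf.2.2.2 _ h).1 rfl
      · exact P3.1
      · exact P3.2.1
  case cln =>
    simp only [qk2_PC, List.zip_cons_cons, List.forall_mem_cons]
    refine ⟨?_, ?_, ?_, ?_, ?_, by simp⟩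
    · intro i hi hU h1 h2 u hu
      interval_cases i <;> simp only [List.getD_cons_zero, List.getD_cons_succ] at h1 h2 ⊢
      · exact (F1 _ (M0 _ hu)).2
      · exact absurd (by simp) hU
      · exact absurd (by simp) hU
      · exact absurd (by simp) hU
      · exact absurd rfl h1
      · exact absurd rfl h2
      · exact (A21 _ hC _ (M0 _ hu)).2
      · exact (A21 _ hC' _ (M0 _ hu)).2
      · exact (A31 _ hL _ (M0 _ hu)).2
      · exact (A31 _ hR _ (M0 _ hu)).2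
      · exact (A31 _ hF _ (M0 _ hu)).2
      · exact (A31 _ hY _ (M0 _ hu)).2
      · exact (A31 _ hY' _ (M0 _ hu)).2
    · intro i hi hU h1 h2 u hu
      interval_cases i <;> simp only [List.getD_cons_zero, List.getD_cons_succ] at h1 h2 ⊢
      · exact (F2 _ (Mc _ hu)).2
      · exact absurd (by simp) hU
      · exact absurd (by simp) hU
      · exact absurd (by simp) hU
      · exact (A12 _ hT _ (Mc _ hu)).2
      · exact (A12 _ hW _ (Mc _ hu)).2
      · exact absurd rfl h1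
      · exact absurd rfl h2
      · exact (A32 _ hL _ (Mc _ hu)).2
      · exact (A32 _ hR _ (Mc _ hu)).2
      · exact (A32 _ hF _ (Mc _ hu)).2
      · exact (A32 _ hY _ (Mc _ hu)).2
      · exact (A32 _ hY' _ (Mc _ hu)).2
    · intro i hi hU h1 h2 u hu
      interval_cases i <;> simp only [List.getD_cons_zero, List.getD_cons_succ] at h1 h2 ⊢
      · exact (F3 _ (M1 _ hu)).2
      · exact fun e => hb1 hU u (Or.inl hu) e.symm
      · exact fun e => hb2 hU u (Or.inl hu) e.symm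
      · exact fun e => hP.nl1 u hu e.symm
      · exact (A13 _ hT _ (M1 _ hu)).2
      · exact (A13 _ hW _ (M1 _ hu)).2
      · exact (A23 _ hC _ (M1 _ hu)).2
      · exact (A23 _ hC' _ (M1 _ hu)).2
      · exact absurd rfl h1
      · exact fun e => (hP.l1w h2.symm u hu).2 e.symm
      · exact absurd rfl h2
      · exact Y1 u hu
      · exact hP.y2l u hu
    · intro i hi hU h1 h2 u hu
      interval_cases i <;> simp only [List.getD_cons_zero, List.getD_cons_succ] at h1 h2 ⊢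
      · exact (F3 _ (M2 _ hu)).2
      · exact fun e => hb1 (qk2_mem hU) u (Or.inr hu) e.symm
      · exact fun e => hb2 (qk2_mem hU) u (Or.inr hu) e.symm
      · exact fun e => hP.nl2 u hu e.symm
      · exact (A13 _ hT _ (M2 _ hu)).2
      · exact (A13 _ hW _ (M2 _ hu)).2
      · exact (A23 _ hC _ (M2 _ hu)).2
      · exact (A23 _ hC' _ (M2 _ hu)).2
      · exact (hP.al2 h1 u hu).2
      · exact absurd rfl h2
      · exact absurd rfl h1
      · exact absurd (by simp) hU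
      · exact absurd (by simp) hU
    · intro i hi hU h1 h2 u hu
      interval_cases i <;> simp only [List.getD_cons_zero, List.getD_cons_succ] at h1 h2 ⊢
      · exact (F3 _ (M3 _ hu)).2
      · exact absurd hm1 hU
      · exact absurd hm2 hU
      · exact fun e => hP.l3φ u hu e.symm
      · exact (A13 _ hT _ (M3 _ hu)).2
      · exact (A13 _ hW _ (M3 _ hu)).2
      · exact (A23 _ hC _ (M3 _ hu)).2
      · exact (A23 _ hC' _ (M3 _ hu)).2
      · exact fun e => (Sl.2.2.2 _ hu).2 e.symm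
      · exact fun e => (Sr.2.2.2 _ hu).2 e.symm
      · exact fun e => (Sf.2.2.2 _ hu).2 e.symm
      · exact absurd rfl h1
      · exact absurd rfl h2
  case sep =>
    simp only [List.pairwise_cons, List.forall_mem_cons]
    refine ⟨⟨fun u hu v hv => A12 _ (M0 u hu) _ (Mc v hv),
      fun u hu v hv => A13 _ (M0 u hu) _ (M1 v hv),
      fun u hu v hv => A13 _ (M0 u hu) _ (M2 v hv),
      fun u hu v hv => A13 _ (M0 u hu) _ (M3 v hv), by simp⟩,
      ⟨fun u hu v hv => A23 _ (Mc u hu) _ (M1 v hv),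
      fun u hu v hv => A23 _ (Mc u hu) _ (M2 v hv),
      fun u hu v hv => A23 _ (Mc u hu) _ (M3 v hv), by simp⟩,
      ⟨hP.l12,
      fun u hu v hv => ⟨fun e => ((S1 u hu).2.2.2 v hv).1 e.symm, fun e => ((S1 u hu).2.2.2 v hv).2 e.symm⟩, by simp⟩,
      ⟨fun u hu v hv => ⟨fun e => ((S2 u hu).2.2.2 v hv).1 e.symm, fun e => ((S2 u hu).2.2.2 v hv).2 e.symm⟩, by simp⟩,
      by simp, by simp⟩

/-- symbols: 0=x 1=p 2=p' 3=s 4=t 5=w 6=c 7=c' 8=l 9=r 10=f -/
def qk2_PD (a b : ℕ) : Pre :=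
  ⟨11,
    [(0, 1), (0, 2), (0, 3), (4, 1), (4, 2), (4, 3), (5, 1), (6, 1), (6, 2), (6, 3), (7, 3), (8, a), (9, b), (10, 3)],
    [(0, 4), (0, 5), (5, 2), (0, 6), (6, 4), (6, 5), (0, 7), (7, 4), (7, 5), (7, 1), (7, 2), (0, 8), (8, 4), (8, 5), (8, 6), (8, 7), (0, 9), (9, 4), (9, 5), (9, 6), (9, 7), (8, b), (0, 10), (10, 4), (10, 5), (10, 6), (10, 7)],
    [(1, 2), (1, 3), (2, 3)],
    [(8, 10), (9, 10)],
    [([(8, 10), (10, 9)], 8, 9), ([(10, 9)], 10, b), ([(8, 10)], 8, 3)],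
    [],
    [(4, 5, [1, 2, 3]), (6, 7, [1, 2, 3]), (8, 10, [a]), (10, 9, [a, 3])]⟩

theorem qk2_D (hB : ST_PTB) {V : Type} (G : SimpleGraph V) (K1 K2 K3 : Set V) (a b : ℕ)
    (x p p' s t w c c' l r f : V) (L Lc l1 l2 : List V)
    (A12 : Anti G K1 K2) (A13 : Anti G K1 K3) (A23 : Anti G K2 K3)
    (F1 : ∀ u ∈ K1, x ≠ u ∧ ¬ G.Adj x u) (F2 : ∀ u ∈ K2, x ≠ u ∧ ¬ G.Adj x u)
    (F3 : ∀ u ∈ K3, x ≠ u ∧ ¬ G.Adj x u)
    (xp : G.Adj x p) (xp' : G.Adj x p') (xs : G.Adj x s) (pp : p ≠ p') (sp : s ≠ p)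
    (sp' : s ≠ p') (tp : G.Adj t p) (tp' : G.Adj t p') (ts : G.Adj t s) (wp : G.Adj w p)
    (wp' : ¬ G.Adj w p') (hT1 : PtK G K1 t L w) (hC : c ∈ K2) (cp : G.Adj c p)
    (cp' : G.Adj c p') (cs : G.Adj c s) (hC2 : PtK G K2 c Lc c') (c's : G.Adj c' s)
    (c'p : ¬ G.Adj c' p) (c'p' : ¬ G.Adj c' p')
    (hm1 : 1 ∈ [a, b]) (hm2 : 2 ∈ [a, b])
    (la : G.Adj l ([x, p, p', s, t, w, c, c', l, r, f].getD a x))
    (lb : l ≠ [x, p, p', s, t, w, c, c', l, r, f].getD b x ∧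
      ¬ G.Adj l ([x, p, p', s, t, w, c, c', l, r, f].getD b x))
    (rb : G.Adj r ([x, p, p', s, t, w, c, c', l, r, f].getD b x))
    (fb : f ≠ r → f ≠ [x, p, p', s, t, w, c, c', l, r, f].getD b x ∧
      ¬ G.Adj f ([x, p, p', s, t, w, c, c', l, r, f].getD b x))
    (hb1 : 1 ∉ [a] → ∀ u, u ∈ l1 ∨ u ∈ l2 → ¬ G.Adj u p)
    (hb2 : 2 ∉ [a] → ∀ u, u ∈ l1 ∨ u ∈ l2 → ¬ G.Adj u p')
    (hP : OnP G K3 (fun u => G.Adj u s) l l1 f l2 r) :
    PMod G (qk2_PD a b) (fun i => [x, p, p', s, t, w, c, c', l, r, f].getD i x)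
      [L, Lc, l1, l2] := by
  have hT := hT1.lK
  have hW := hT1.rK
  have hC' := hC2.rK
  have hL := hP.aK
  have hR := hP.wK
  have hF := hP.fK
  have M0 := hT1.LK
  have Mc := hC2.LK
  have M1 := hP.l1K
  have M2 := hP.l2K
  have E1 : ∀ n, G.Adj x n → ∀ u ∈ K1, n ≠ u := fun n hn u hu e => (F1 u hu).2 (e ▸ hn)
  have E1' : ∀ n, G.Adj x n → ∀ u ∈ K1, u ≠ n := fun n hn u hu e => (F1 u hu).2 (e ▸ hn)
  have E2 : ∀ n, G.Adj x n → ∀ u ∈ K2, n ≠ u := fun n hn u hu e => (F2 u hu).2 (e ▸ hn)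
  have E2' : ∀ n, G.Adj x n → ∀ u ∈ K2, u ≠ n := fun n hn u hu e => (F2 u hu).2 (e ▸ hn)
  have E3 : ∀ n, G.Adj x n → ∀ u ∈ K3, n ≠ u := fun n hn u hu e => (F3 u hu).2 (e ▸ hn)
  have E3' : ∀ n, G.Adj x n → ∀ u ∈ K3, u ≠ n := fun n hn u hu e => (F3 u hu).2 (e ▸ hn)
  have A21 : Anti G K2 K1 := fun u hu v hv => ⟨(A12 v hv u hu).1.symm, fun e => (A12 v hv u hu).2 e.symm⟩
  have A31 : Anti G K3 K1 := fun u hu v hv => ⟨(A13 v hv u hu).1.symm, fun e => (A13 v hv u hu).2 e.symm⟩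
  have A32 : Anti G K3 K2 := fun u hu v hv => ⟨(A23 v hv u hu).1.symm, fun e => (A23 v hv u hu).2 e.symm⟩
  have P0 := (hB V G).2.1 _ _ _ hT1.pth
  have Pc := (hB V G).2.1 _ _ _ hC2.pth
  have P1 := (hB V G).2.1 _ _ _ hP.p1
  have P2 := (hB V G).2.1 _ _ _ hP.p2
  have R1 : r ∉ l1 := by
    rcases eq_or_ne f r with e | e
    · exact e ▸ P1.2.1
    · exact fun h => (hP.l1w e r h).1 rfl
  have L2 : l ∉ l2 := by
    rcases eq_or_ne l f with e | e
    · rw [e]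
      exact P2.1
    · exact fun h => (hP.al2 e l h).1 rfl
  constructor
  case e =>
    simp only [qk2_PD, List.forall_mem_cons, List.getD_cons_zero, List.getD_cons_succ]
    exact ⟨xp, xp', xs, tp, tp', ts, wp, cp, cp', cs, c's, la, rb, hP.ff, by simp⟩
  case d =>
    simp only [qk2_PD, List.forall_mem_cons, List.getD_cons_zero, List.getD_cons_succ]
    exact ⟨F1 _ hT,
      F1 _ hW,
      ⟨E1' _ xp' _ hW, wp'⟩,
      F2 _ hC,
      A21 _ hC _ hT,
      A21 _ hC _ hW,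
      F2 _ hC',
      A21 _ hC' _ hT,
      A21 _ hC' _ hW,
      ⟨E2' _ xp _ hC', c'p⟩,
      ⟨E2' _ xp' _ hC', c'p'⟩,
      F3 _ hL,
      A31 _ hL _ hT,
      A31 _ hL _ hW,
      A32 _ hL _ hC,
      A32 _ hL _ hC',
      F3 _ hR,
      A31 _ hR _ hT,
      A31 _ hR _ hW,
      A32 _ hR _ hC,
      A32 _ hR _ hC',
      lb,
      F3 _ hF,
      A31 _ hF _ hT,
      A31 _ hF _ hW,
      A32 _ hF _ hC,
      A32 _ hF _ hC', by simp⟩
  case ne =>
    simp only [qk2_PD, List.forall_mem_cons, List.getD_cons_zero, List.getD_cons_succ]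
    exact ⟨pp, sp.symm, sp'.symm, by simp⟩
  case c =>
    simp only [qk2_PD, List.forall_mem_cons, List.getD_cons_zero, List.getD_cons_succ]
    refine ⟨fun h => hP.aw h.1 h.2.1, fun h => fb h.1, fun h => ⟨E3' _ xs _ hL, hP.ft h.1⟩, by simp⟩
  case cn =>
    simp [qk2_PD]
  case len =>
    rfl
  case tri =>
    simp only [qk2_PD, List.zip_cons_cons, List.forall_mem_cons, List.getD_cons_zero,
      List.getD_cons_succ]
    exact ⟨qk2_tri hT1.pth, qk2_tri hC2.pth, qk2_tri hP.p1, qk2_tri hP.p2, by simp⟩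
  case pth =>
    simp only [qk2_PD, List.zip_cons_cons, List.forall_mem_cons, List.getD_cons_zero,
      List.getD_cons_succ]
    exact ⟨qk2_pth hT1.pth, qk2_pth hC2.pth, qk2_pth hP.p1, qk2_pth hP.p2, by simp⟩
  case dis =>
    simp only [qk2_PD, List.zip_cons_cons, List.forall_mem_cons]
    refine ⟨?_, ?_, ?_, ?_, by simp⟩
    · intro i hi
      interval_cases i <;> simp only [List.getD_cons_zero, List.getD_cons_succ]
      · exact fun h => (F1 _ (M0 _ h)).1 rfl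
      · exact fun h => E1 _ xp _ (M0 _ h) rfl
      · exact fun h => E1 _ xp' _ (M0 _ h) rfl
      · exact fun h => E1 _ xs _ (M0 _ h) rfl
      · exact P0.1
      · exact P0.2.1
      · exact fun h => (A21 _ hC _ (M0 _ h)).1 rfl
      · exact fun h => (A21 _ hC' _ (M0 _ h)).1 rfl
      · exact fun h => (A31 _ hL _ (M0 _ h)).1 rfl
      · exact fun h => (A31 _ hR _ (M0 _ h)).1 rfl
      · exact fun h => (A31 _ hF _ (M0 _ h)).1 rfl
    · intro i hi
      interval_cases i <;> simp only [List.getD_cons_zero, List.getD_cons_succ]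
      · exact fun h => (F2 _ (Mc _ h)).1 rfl
      · exact fun h => E2 _ xp _ (Mc _ h) rfl
      · exact fun h => E2 _ xp' _ (Mc _ h) rfl
      · exact fun h => E2 _ xs _ (Mc _ h) rfl
      · exact fun h => (A12 _ hT _ (Mc _ h)).1 rfl
      · exact fun h => (A12 _ hW _ (Mc _ h)).1 rfl
      · exact Pc.1
      · exact Pc.2.1
      · exact fun h => (A32 _ hL _ (Mc _ h)).1 rfl
      · exact fun h => (A32 _ hR _ (Mc _ h)).1 rfl
      · exact fun h => (A32 _ hF _ (Mc _ h)).1 rfl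
    · intro i hi
      interval_cases i <;> simp only [List.getD_cons_zero, List.getD_cons_succ]
      · exact fun h => (F3 _ (M1 _ h)).1 rfl
      · exact fun h => E3 _ xp _ (M1 _ h) rfl
      · exact fun h => E3 _ xp' _ (M1 _ h) rfl
      · exact fun h => E3 _ xs _ (M1 _ h) rfl
      · exact fun h => (A13 _ hT _ (M1 _ h)).1 rfl
      · exact fun h => (A13 _ hW _ (M1 _ h)).1 rfl
      · exact fun h => (A23 _ hC _ (M1 _ h)).1 rfl
      · exact fun h => (A23 _ hC' _ (M1 _ h)).1 rfl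
      · exact P1.1
      · exact R1
      · exact P1.2.1
    · intro i hi
      interval_cases i <;> simp only [List.getD_cons_zero, List.getD_cons_succ]
      · exact fun h => (F3 _ (M2 _ h)).1 rfl
      · exact fun h => E3 _ xp _ (M2 _ h) rfl
      · exact fun h => E3 _ xp' _ (M2 _ h) rfl
      · exact fun h => E3 _ xs _ (M2 _ h) rfl
      · exact fun h => (A13 _ hT _ (M2 _ h)).1 rfl
      · exact fun h => (A13 _ hW _ (M2 _ h)).1 rfl
      · exact fun h => (A23 _ hC _ (M2 _ h)).1 rfl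
      · exact fun h => (A23 _ hC' _ (M2 _ h)).1 rfl
      · exact L2
      · exact P2.2.1
      · exact P2.1
  case cln =>
    simp only [qk2_PD, List.zip_cons_cons, List.forall_mem_cons]
    refine ⟨?_, ?_, ?_, ?_, by simp⟩
    · intro i hi hU h1 h2 u hu
      interval_cases i <;> simp only [List.getD_cons_zero, List.getD_cons_succ] at h1 h2 ⊢
      · exact (F1 _ (M0 _ hu)).2
      · exact absurd (by simp) hU
      · exact absurd (by simp) hU
      · exact absurd (by simp) hU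
      · exact absurd rfl h1
      · exact absurd rfl h2
      · exact (A21 _ hC _ (M0 _ hu)).2
      · exact (A21 _ hC' _ (M0 _ hu)).2
      · exact (A31 _ hL _ (M0 _ hu)).2
      · exact (A31 _ hR _ (M0 _ hu)).2
      · exact (A31 _ hF _ (M0 _ hu)).2
    · intro i hi hU h1 h2 u hu
      interval_cases i <;> simp only [List.getD_cons_zero, List.getD_cons_succ] at h1 h2 ⊢
      · exact (F2 _ (Mc _ hu)).2
      · exact absurd (by simp) hU
      · exact absurd (by simp) hU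
      · exact absurd (by simp) hU
      · exact (A12 _ hT _ (Mc _ hu)).2
      · exact (A12 _ hW _ (Mc _ hu)).2
      · exact absurd rfl h1
      · exact absurd rfl h2
      · exact (A32 _ hL _ (Mc _ hu)).2
      · exact (A32 _ hR _ (Mc _ hu)).2
      · exact (A32 _ hF _ (Mc _ hu)).2
    · intro i hi hU h1 h2 u hu
      interval_cases i <;> simp only [List.getD_cons_zero, List.getD_cons_succ] at h1 h2 ⊢
      · exact (F3 _ (M1 _ hu)).2
      · exact fun e => hb1 hU u (Or.inl hu) e.symm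
      · exact fun e => hb2 hU u (Or.inl hu) e.symm
      · exact fun e => hP.fl u hu e.symm
      · exact (A13 _ hT _ (M1 _ hu)).2
      · exact (A13 _ hW _ (M1 _ hu)).2
      · exact (A23 _ hC _ (M1 _ hu)).2
      · exact (A23 _ hC' _ (M1 _ hu)).2
      · exact absurd rfl h1
      · exact fun e => (hP.l1w h2.symm u hu).2 e.symm
      · exact absurd rfl h2
    · intro i hi hU h1 h2 u hu
      interval_cases i <;> simp only [List.getD_cons_zero, List.getD_cons_succ] at h1 h2 ⊢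
      · exact (F3 _ (M2 _ hu)).2
      · exact fun e => hb1 (qk2_mem hU) u (Or.inr hu) e.symm
      · exact fun e => hb2 (qk2_mem hU) u (Or.inr hu) e.symm
      · exact absurd (by simp) hU
      · exact (A13 _ hT _ (M2 _ hu)).2
      · exact (A13 _ hW _ (M2 _ hu)).2
      · exact (A23 _ hC _ (M2 _ hu)).2
      · exact (A23 _ hC' _ (M2 _ hu)).2
      · exact (hP.al2 h1 u hu).2
      · exact absurd rfl h2
      · exact absurd rfl h1
  case sep =>
    simp only [List.pairwise_cons, List.forall_mem_cons]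
    refine ⟨⟨fun u hu v hv => A12 _ (M0 u hu) _ (Mc v hv),
      fun u hu v hv => A13 _ (M0 u hu) _ (M1 v hv),
      fun u hu v hv => A13 _ (M0 u hu) _ (M2 v hv), by simp⟩,
      ⟨fun u hu v hv => A23 _ (Mc u hu) _ (M1 v hv),
      fun u hu v hv => A23 _ (Mc u hu) _ (M2 v hv), by simp⟩,
      ⟨hP.l12, by simp⟩,
      by simp, by simp⟩

theorem qk2_e : preK2000 = qk2_PA 1 2 ∧ preK2010 = qk2_PA 2 1 ∧ preK2001 = qk2_PB 1 2 ∧
    preK2011 = qk2_PB 2 1 ∧ preK2100 = qk2_PC 1 2 ∧ preK2110 = qk2_PC 2 1 ∧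
    preK2101 = qk2_PD 1 2 ∧ preK2111 = qk2_PD 2 1 :=
  ⟨rfl, rfl, rfl, rfl, rfl, rfl, rfl, rfl⟩

theorem st_QK2 (h1 : ST_SEP) (h2 : ST_PTB) : ST_QK2 := by
  intro V G hN x y1 y2 y3 p p' s t L w n12 n13 n23 xp xp' xs hT1 tp tp' ts wp wp' hc sp sp' hab
  have A12 := h1 V G x y1 y2 n12
  have A13 := h1 V G x y1 y3 n13
  have A23 := h1 V G x y2 y3 n23
  have FF : ∀ y, ∀ u ∈ KC G x y, x ≠ u ∧ ¬ G.Adj x u := by
    intro y u hu
    obtain ⟨_, hz, _⟩ := hu
    exact ⟨fun e => hz.1 e.symm, hz.2⟩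
  have F1 := FF y1
  have F2 := FF y2
  have F3 := FF y3
  have E3 : ∀ n, G.Adj x n → ∀ u ∈ KC G x y3, u ≠ n := fun n hn u hu e => (F3 u hu).2 (e ▸ hn)
  have pp : p ≠ p' := by
    rintro rfl
    exact wp' wp
  obtain ⟨c, hC, cp, cp', hc⟩ := hc
  obtain ⟨a, b, hab, l, l1, f, l2, r, la, lb, rb, hl1, hl2, hf, hP⟩ := hab
  rcases hab with ⟨rfl, rfl⟩ | ⟨rfl, rfl⟩
  · rcases hP with hP | ⟨y, l3, y', hP⟩
    · rcases hc with cs | ⟨cs, Lc, c', hC2, c's, c'p, c'p'⟩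
      · exact hN preK2001 (by simp [preBs]) _ _ (qk2_e.2.2.1 ▸ qk2_B h2 G _ _ _ 1 2 x a b s t w c l r f
          L l1 l2 A12 A13 A23 F1 F2 F3 xp xp' xs pp sp sp' tp tp' ts wp wp' hT1 hC cp cp' cs
          (by simp) (by simp) la ⟨E3 _ xp' _ hP.aK, lb⟩ rb (fun e => ⟨E3 _ xp' _ hP.fK, hf e⟩)
          (fun h => absurd (by simp) h) (fun _ u hu => hu.elim (hl1 u) (hl2 u)) hP)
      · exact hN preK2101 (by simp [preBs]) _ _ (qk2_e.2.2.2.2.2.2.1 ▸ qk2_D h2 G _ _ _ 1 2 x a b s t w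
          c c' l r f L Lc l1 l2 A12 A13 A23 F1 F2 F3 xp xp' xs pp sp sp' tp tp' ts wp wp' hT1 hC cp
          cp' cs hC2 c's c'p c'p' (by simp) (by simp) la ⟨E3 _ xp' _ hP.aK, lb⟩ rb
          (fun e => ⟨E3 _ xp' _ hP.fK, hf e⟩) (fun h => absurd (by simp) h)
          (fun _ u hu => hu.elim (hl1 u) (hl2 u)) hP)
    · rcases hc with cs | ⟨cs, Lc, c', hC2, c's, c'p, c'p'⟩
      · exact hN preK2000 (by simp [preBs]) _ _ (qk2_e.1 ▸ qk2_A h2 G _ _ _ 1 2 x a b s t w c l r f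
          y y' L l1 l2 l3 A12 A13 A23 F1 F2 F3 xp xp' xs pp sp sp' tp tp' ts wp wp' hT1 hC cp cp' cs
          (by simp) (by simp) la ⟨E3 _ xp' _ hP.aK, lb⟩ rb (fun e => ⟨E3 _ xp' _ hP.fK, hf e⟩)
          (fun h => absurd (by simp) h) (fun _ u hu => hu.elim (hl1 u) (hl2 u)) hP)
      · exact hN preK2100 (by simp [preBs]) _ _ (qk2_e.2.2.2.2.1 ▸ qk2_C h2 G _ _ _ 1 2 x a b s t w
          c c' l r f y y' L Lc l1 l2 l3 A12 A13 A23 F1 F2 F3 xp xp' xs pp sp sp' tp tp' ts wp wp' hT1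
          hC cp cp' cs hC2 c's c'p c'p' (by simp) (by simp) la ⟨E3 _ xp' _ hP.aK, lb⟩ rb
          (fun e => ⟨E3 _ xp' _ hP.fK, hf e⟩) (fun h => absurd (by simp) h)
          (fun _ u hu => hu.elim (hl1 u) (hl2 u)) hP)
  · rcases hP with hP | ⟨y, l3, y', hP⟩
    · rcases hc with cs | ⟨cs, Lc, c', hC2, c's, c'p, c'p'⟩
      · exact hN preK2011 (by simp [preBs]) _ _ (qk2_e.2.2.2.1 ▸ qk2_B h2 G _ _ _ 2 1 x b a s t w c l r
          f L l1 l2 A12 A13 A23 F1 F2 F3 xp xp' xs pp sp sp' tp tp' ts wp wp' hT1 hC cp cp' cs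
          (by simp) (by simp) la ⟨E3 _ xp _ hP.aK, lb⟩ rb (fun e => ⟨E3 _ xp _ hP.fK, hf e⟩)
          (fun _ u hu => hu.elim (hl1 u) (hl2 u)) (fun h => absurd (by simp) h) hP)
      · exact hN preK2111 (by simp [preBs]) _ _ (qk2_e.2.2.2.2.2.2.2 ▸ qk2_D h2 G _ _ _ 2 1 x b a s t w
          c c' l r f L Lc l1 l2 A12 A13 A23 F1 F2 F3 xp xp' xs pp sp sp' tp tp' ts wp wp' hT1 hC cp
          cp' cs hC2 c's c'p c'p' (by simp) (by simp) la ⟨E3 _ xp _ hP.aK, lb⟩ rb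
          (fun e => ⟨E3 _ xp _ hP.fK, hf e⟩) (fun _ u hu => hu.elim (hl1 u) (hl2 u))
          (fun h => absurd (by simp) h) hP)
    · rcases hc with cs | ⟨cs, Lc, c', hC2, c's, c'p, c'p'⟩
      · exact hN preK2010 (by simp [preBs]) _ _ (qk2_e.2.1 ▸ qk2_A h2 G _ _ _ 2 1 x b a s t w c l r f
          y y' L l1 l2 l3 A12 A13 A23 F1 F2 F3 xp xp' xs pp sp sp' tp tp' ts wp wp' hT1 hC cp cp' cs
          (by simp) (by simp) la ⟨E3 _ xp _ hP.aK, lb⟩ rb (fun e => ⟨E3 _ xp _ hP.fK, hf e⟩)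
          (fun _ u hu => hu.elim (hl1 u) (hl2 u)) (fun h => absurd (by simp) h) hP)
      · exact hN preK2110 (by simp [preBs]) _ _ (qk2_e.2.2.2.2.2.1 ▸ qk2_C h2 G _ _ _ 2 1 x b a s t w
          c c' l r f y y' L Lc l1 l2 l3 A12 A13 A23 F1 F2 F3 xp xp' xs pp sp sp' tp tp' ts wp wp' hT1
          hC cp cp' cs hC2 c's c'p c'p' (by simp) (by simp) la ⟨E3 _ xp _ hP.aK, lb⟩ rb
          (fun e => ⟨E3 _ xp _ hP.fK, hf e⟩) (fun _ u hu => hu.elim (hl1 u) (hl2 u))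
          (fun h => absurd (by simp) h) hP)

end Pool.Agent.Helper64.FL
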